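import Mathlib

set_option autoImplicit false

/-!
# Composition of parallel repeated projection games with unique tests: definitions
-/

namespace Run7.h881.CK

open Finset

/-- A projection game (Label Cover instance) with local distributions: left vertices `U` with labels
in `S`, right vertices `V` with labels in `G`; `nbr u v` says that `u` and `v` are adjacent, and
`proj u v : S → G` is the projection of this edge. `mu u` is a probability distribution on the labels
of `u`, and its projection to a neighbour `v` is the distribution `lam v`, which does not depend on
`u`. -/
structure Source (U V S G : Type) [Fintype S] [DecidableEq G] where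
  nbr : U → V → Prop
  proj : U → V → S → G
  mu : U → S → ℝ
  lam : V → G → ℝ
  mu_nonneg : ∀ u a, 0 ≤ mu u a
  mu_sum : ∀ u, ∑ a, mu u a = 1
  marginal : ∀ u v, nbr u v → ∀ g, ∑ a with proj u v a = g, mu u a = lam v g

variable {U V S G : Type} [Fintype S] [DecidableEq G]

/-- The projections of a random label of a left vertex to two different neighbours are
independent. -/
def Source.Indep (Q : Source U V S G) : Prop :=
  ∀ u v v', Q.nbr u v → Q.nbr u v' → v ≠ v' → ∀ g g',
    ∑ a with Q.proj u v a = g ∧ Q.proj u v' a = g', Q.mu u a = Q.lam v g * Q.lam v' g'

/-- The probability that a random label of `u` which has the same projection to `v` as the label `a`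
is equal to `b`. -/
noncomputable def Source.cond (Q : Source U V S G) (u : U) (v : V) (a b : S) : ℝ :=
  if Q.proj u v b = Q.proj u v a then Q.mu u b / Q.lam v (Q.proj u v a) else 0

/-- The probability that `h` has different values at two independent random labels of `u`. -/
noncomputable def Source.diff (Q : Source U V S G) {A : Type} (u : U) (h : S → A) : ℝ :=
  open Classical in ∑ a, ∑ b, if h a ≠ h b then Q.mu u a * Q.mu u b else 0

/-- The probability that `h` has different values at two random labels of `u` which are independent
given that they have the same projection to `v`. -/
noncomputable def Source.diffAt (Q : Source U V S G) {A : Type} (u : U) (v : V) (h : S → A) : ℝ :=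
  open Classical in ∑ a, ∑ b, if h a ≠ h b then Q.mu u a * Q.cond u v a b else 0

/-- Only the nearly constant functions of the label of a left vertex are, nearly, both functions of
the projection to `v` and functions of the projection to `v'`, for different neighbours `v`, `v'`. The
projections are `Spread` with `κ = 1` if they are pairwise independent. -/
def Source.Spread (Q : Source U V S G) (A : Type) (κ : ℝ) : Prop :=
  ∀ u v v', Q.nbr u v → Q.nbr u v' → v ≠ v' → ∀ h : S → A,
    Q.diff u h ≤ κ * (Q.diffAt u v h + Q.diffAt u v' h)

/-- The joint distribution of the labels of `u` and `u'`: the same label if `u = u'`, otherwise two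
labels with the same projection to the common neighbour `v` which are independent given this
projection. -/
noncomputable def Source.joint (Q : Source U V S G) (u u' : U) (v : V) (a a' : S) : ℝ :=
  open Classical in
  if u = u' then (if a = a' then Q.mu u a else 0)
  else if Q.proj u v a = Q.proj u' v a' then Q.mu u a * Q.mu u' a' / Q.lam v (Q.proj u v a) else 0

/-- A unique game composed with the parallel repetition of the games `Q i`, `i : I`. Each vertex `w`
of the game belongs to the table of a tuple `own w` of left vertices, and its honest label is a
function `hon w` of the tuple of the labels. Every edge `e` from `src e` to `tgt e` carries a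
permutation of the alphabet `A`; in each coordinate the left vertices of the two tables are equal, or
they are neighbours of the right vertex `via e i`. -/
structure Composed {I : Type} (Q : I → Source U V S G) (W E A : Type) where
  own : W → I → U
  hon : W → (I → S) → A
  src : E → W
  tgt : E → W
  perm : E → Equiv.Perm A
  via : E → I → V
  adj : ∀ e i, own (src e) i ≠ own (tgt e) i →
    (Q i).nbr (own (src e) i) (via e i) ∧ (Q i).nbr (own (tgt e) i) (via e i)

/-- The probability that the honest labels violate the edge `e`; the coordinates are independent. -/
noncomputable def Composed.viol {I : Type} [Fintype I] {Q : I → Source U V S G} {W E A : Type}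
    (R : Composed Q W E A) (e : E) : ℝ :=
  open Classical in
  ∑ a : I → S, ∑ a' : I → S, if R.perm e (R.hon (R.src e) a) ≠ R.hon (R.tgt e) a'
    then ∏ i, (Q i).joint (R.own (R.src e) i) (R.own (R.tgt e) i) (R.via e i) (a i) (a' i) else 0

end Run7.h881.CK
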