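import Mathlib
import Pool.Agent.Run7.h881.CB.Select

set_option autoImplicit false
set_option linter.unusedSectionVars false

/-!
# Expectations over finite product distributions
-/

namespace Run7.h881.CK

open Finset
open scoped Classical

variable {I Z Y : Type} [Fintype I] [Fintype Z] [Fintype Y]

/-- the expectation of `f` for independent coordinates with weights `ρ i` -/
noncomputable def ex (ρ : I → Z → ℝ) (f : (I → Z) → ℝ) : ℝ := ∑ z : I → Z, (∏ i, ρ i (z i)) * f z

/-- indicator -/
noncomputable def ind (P : Prop) : ℝ := if P then 1 else 0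

lemma ind_nonneg (P : Prop) : 0 ≤ ind P := by unfold ind; split_ifs <;> norm_num

lemma ind_le_one (P : Prop) : ind P ≤ 1 := by unfold ind; split_ifs <;> norm_num

lemma ind_or {P P' P'' : Prop} (h : P → P' ∨ P'') : ind P ≤ ind P' + ind P'' := by
  unfold ind
  by_cases h1 : P
  · rcases h h1 with h2 | h2
    · rw [if_pos h1, if_pos h2]; split_ifs <;> norm_num
    · rw [if_pos h1, if_pos h2]; split_ifs <;> norm_num
  · rw [if_neg h1]; split_ifs <;> norm_num

lemma ind_or3 {P P' P'' P''' : Prop} (h : P → P' ∨ P'' ∨ P''') :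
    ind P ≤ ind P' + ind P'' + ind P''' := by
  have h1 : ind P ≤ ind P' + ind (P'' ∨ P''') := ind_or h
  have h2 : ind (P'' ∨ P''') ≤ ind P'' + ind P''' := ind_or id
  linarith

lemma ex_add (ρ : I → Z → ℝ) (f g : (I → Z) → ℝ) :
    ex ρ (fun z => f z + g z) = ex ρ f + ex ρ g := by
  unfold ex
  rw [← Finset.sum_add_distrib]
  exact Finset.sum_congr rfl fun z _ => by ring

lemma ex_mono {ρ : I → Z → ℝ} (hρ : ∀ i z, 0 ≤ ρ i z) {f g : (I → Z) → ℝ} (h : ∀ z, f z ≤ g z) :
    ex ρ f ≤ ex ρ g := by
  unfold ex
  exact Finset.sum_le_sum fun z _ =>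
    mul_le_mul_of_nonneg_left (h z) (Finset.prod_nonneg fun i _ => hρ i _)

lemma ex_nonneg {ρ : I → Z → ℝ} (hρ : ∀ i z, 0 ≤ ρ i z) {f : (I → Z) → ℝ} (h : ∀ z, 0 ≤ f z) :
    0 ≤ ex ρ f := by
  unfold ex
  exact Finset.sum_nonneg fun z _ => mul_nonneg (Finset.prod_nonneg fun i _ => hρ i _) (h z)

lemma ex_const {ρ : I → Z → ℝ} (hρ : ∀ i, ∑ z, ρ i z = 1) (c : ℝ) : ex ρ (fun _ => c) = c := by
  unfold ex
  rw [← Finset.sum_mul, Run7.h881.CB.sum_pi_prod, Finset.prod_congr rfl fun i _ => hρ i]
  simp

/-- image of a product distribution under coordinate maps -/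
lemma ex_push (ρ : I → Z → ℝ) (X : I → Z → Y) (f : (I → Y) → ℝ) :
    ex ρ (fun z => f (fun i => X i (z i))) =
      ex (fun i y => ∑ z, if X i z = y then ρ i z else 0) f := by
  unfold ex
  have h1 : ∀ z : I → Z, (∏ i, ρ i (z i)) * f (fun i => X i (z i)) =
      ∑ y : I → Y, (∏ i, if X i (z i) = y i then ρ i (z i) else 0) * f y := by
    intro z
    rw [Finset.sum_eq_single (fun i => X i (z i))]
    · simp
    · intro y _ hy
      obtain ⟨i, hi⟩ : ∃ i, y i ≠ X i (z i) := by
        by_contra h
        push Not at h
        exact hy (funext h)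
      rw [Finset.prod_eq_zero (Finset.mem_univ i), zero_mul]
      rw [if_neg (Ne.symm hi)]
    · simp
  simp_rw [h1]
  rw [Finset.sum_comm]
  refine Finset.sum_congr rfl fun y _ => ?_
  rw [← Finset.sum_mul]
  congr 1
  exact Run7.h881.CB.sum_pi_prod (fun i z => if X i z = y i then ρ i z else 0)

/-- resampling one coordinate by a kernel -/
lemma ex_resample (ρ : I → Z → ℝ) (i : I) (K : Z → Z → ℝ) (f : (I → Z) → ℝ) :
    ex ρ (fun z => ∑ c, K (z i) c * f (Function.update z i c)) =
      ex (Function.update ρ i (fun c => ∑ y, ρ i y * K y c)) f := by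
  unfold ex
  have h1 : ∀ z : I → Z, (∏ j, ρ j (z j)) * ∑ c, K (z i) c * f (Function.update z i c) =
      ∑ y : I → Z, (∏ j, if j = i then ρ i (z i) * K (z i) (y i) else
        if z j = y j then ρ j (z j) else 0) * f y := by
    intro z
    have h2 : ∀ y : I → Z, (∏ j, if j = i then ρ i (z i) * K (z i) (y i) else
        if z j = y j then ρ j (z j) else 0) * f y =
        ∑ c, if y = Function.update z i c then (∏ j, ρ j (z j)) * (K (z i) c * f y) else 0 := by
      intro y
      by_cases hy : ∀ j, j ≠ i → z j = y j
      · have h3 : y = Function.update z i (y i) := by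
          funext j
          by_cases hj : j = i
          · subst hj; rw [Function.update_self]
          · rw [Function.update_of_ne hj, hy j hj]
        rw [Finset.sum_eq_single (y i)]
        · rw [if_pos h3, ← Finset.mul_prod_erase Finset.univ _ (Finset.mem_univ i),
            ← Finset.mul_prod_erase Finset.univ (fun j => ρ j (z j)) (Finset.mem_univ i), if_pos rfl]
          have h4 : ∏ x ∈ Finset.univ.erase i, (if x = i then ρ i (z i) * K (z i) (y i) else
              if z x = y x then ρ x (z x) else 0) = ∏ x ∈ Finset.univ.erase i, ρ x (z x) := by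
            refine Finset.prod_congr rfl fun x hx => ?_
            rw [Finset.mem_erase] at hx
            rw [if_neg hx.1, if_pos (hy x hx.1)]
          rw [h4]
          ring
        · intro c _ hc
          rw [if_neg]
          intro h5
          apply hc
          rw [h5, Function.update_self]
        · simp
      · push Not at hy
        obtain ⟨j, hj, hjz⟩ := hy
        rw [Finset.prod_eq_zero (Finset.mem_univ j), zero_mul, Finset.sum_eq_zero]
        · intro c _
          rw [if_neg]
          intro h5
          apply hjz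
          rw [h5, Function.update_of_ne hj]
        · rw [if_neg hj, if_neg hjz]
    simp_rw [h2]
    rw [Finset.sum_comm, Finset.mul_sum]
    refine Finset.sum_congr rfl fun c _ => ?_
    rw [Finset.sum_ite_eq' Finset.univ (Function.update z i c)
      (fun y => (∏ j, ρ j (z j)) * (K (z i) c * f y))]
    simp
  simp_rw [h1]
  rw [Finset.sum_comm]
  refine Finset.sum_congr rfl fun y _ => ?_
  rw [← Finset.sum_mul]
  congr 1
  have h6 : ∀ z : I → Z, (∏ j, if j = i then ρ i (z i) * K (z i) (y i) else
        if z j = y j then ρ j (z j) else 0) =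
      ∏ j, (fun (j : I) (z : Z) => if j = i then ρ i z * K z (y i) else
        if z = y j then ρ j z else 0) j (z j) := by
    intro z
    refine Finset.prod_congr rfl fun j _ => ?_
    by_cases hj : j = i
    · subst hj; simp
    · simp [hj]
  refine (Finset.sum_congr rfl fun z _ => h6 z).trans
    ((Run7.h881.CB.sum_pi_prod (fun (j : I) (z : Z) => if j = i then ρ i z * K z (y i) else
        if z = y j then ρ j z else 0)).trans ?_)
  · refine Finset.prod_congr rfl fun j _ => ?_
    by_cases hj : j = i
    · subst hj
      simp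
    · rw [Function.update_of_ne hj]
      simp [hj]

end Run7.h881.CK
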