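import Mathlib
import Pool.Agent.Run7.h881.CK.Defs
import Pool.Agent.Run7.h881.CK.Ex

set_option autoImplicit false
set_option linter.unusedSectionVars false

namespace Run7.h881.CK

open Finset
open scoped Classical

variable {U V S G : Type} [Fintype S] [DecidableEq G]

namespace Source

variable (Q : Source U V S G)

lemma lam_nonneg {u : U} {v : V} (h : Q.nbr u v) (g : G) : 0 ≤ Q.lam v g := by
  rw [← Q.marginal u v h g]
  exact Finset.sum_nonneg fun a _ => Q.mu_nonneg u a

lemma mu_le_lam {u : U} {v : V} (h : Q.nbr u v) (a : S) : Q.mu u a ≤ Q.lam v (Q.proj u v a) := by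
  rw [← Q.marginal u v h]
  exact Finset.single_le_sum (f := fun a => Q.mu u a) (fun b _ => Q.mu_nonneg u b) (by simp)

lemma mu_eq_zero {u : U} {v : V} (h : Q.nbr u v) {a : S} (h0 : Q.lam v (Q.proj u v a) = 0) :
    Q.mu u a = 0 := by
  have h1 := Q.mu_le_lam h a
  rw [h0] at h1
  exact le_antisymm h1 (Q.mu_nonneg u a)

lemma joint_nonneg {u u' : U} {v : V} (h : u ≠ u' → Q.nbr u v ∧ Q.nbr u' v) (a a' : S) :
    0 ≤ Q.joint u u' v a a' := by
  unfold joint
  split_ifs with h1 h2 h3
  · exact Q.mu_nonneg u a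
  · exact le_rfl
  · exact div_nonneg (mul_nonneg (Q.mu_nonneg _ _) (Q.mu_nonneg _ _)) (Q.lam_nonneg (h h1).1 _)
  · exact le_rfl

lemma sum_joint_right {u u' : U} {v : V} (h : u ≠ u' → Q.nbr u v ∧ Q.nbr u' v) (a : S) :
    ∑ a', Q.joint u u' v a a' = Q.mu u a := by
  unfold joint
  by_cases h1 : u = u'
  · simp [h1]
  · obtain ⟨h2, h3⟩ := h h1
    simp only [if_neg h1]
    rw [← Finset.sum_filter]
    have e : ∑ a' with Q.proj u v a = Q.proj u' v a', Q.mu u a * Q.mu u' a' / Q.lam v (Q.proj u v a)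
        = Q.mu u a / Q.lam v (Q.proj u v a) *
          ∑ a' with Q.proj u' v a' = Q.proj u v a, Q.mu u' a' := by
      rw [Finset.mul_sum]
      refine Finset.sum_congr ?_ fun a' _ => by ring
      ext a'
      simp [eq_comm]
    rw [e, Q.marginal u' v h3]
    by_cases h4 : Q.lam v (Q.proj u v a) = 0
    · rw [h4, mul_zero, Q.mu_eq_zero h2 h4]
    · field_simp

lemma joint_symm {u u' : U} {v : V} (a a' : S) :
    Q.joint u u' v a a' = Q.joint u' u v a' a := by
  unfold joint
  by_cases h1 : u = u'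
  · subst h1
    simp only [if_true]
    by_cases h2 : a = a'
    · subst h2; rfl
    · rw [if_neg h2, if_neg (Ne.symm h2)]
  · rw [if_neg h1, if_neg (Ne.symm h1)]
    by_cases h2 : Q.proj u v a = Q.proj u' v a'
    · rw [if_pos h2, if_pos h2.symm, h2]
      ring
    · rw [if_neg h2, if_neg (Ne.symm h2)]

lemma sum_joint_left {u u' : U} {v : V} (h : u ≠ u' → Q.nbr u v ∧ Q.nbr u' v) (a' : S) :
    ∑ a, Q.joint u u' v a a' = Q.mu u' a' := by
  simp_rw [Q.joint_symm (u := u) (u' := u') (v := v)]
  exact Q.sum_joint_right (fun h1 => (h (Ne.symm h1)).symm) a'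

lemma cond_nonneg {u : U} {v : V} (h : Q.nbr u v) (a b : S) : 0 ≤ Q.cond u v a b := by
  unfold cond
  split_ifs
  · exact div_nonneg (Q.mu_nonneg _ _) (Q.lam_nonneg h _)
  · exact le_rfl

lemma cond_sum_le {u : U} {v : V} (h : Q.nbr u v) (a : S) : ∑ b, Q.cond u v a b ≤ 1 := by
  unfold cond
  rw [← Finset.sum_filter, ← Finset.sum_div, Q.marginal u v h]
  by_cases h4 : Q.lam v (Q.proj u v a) = 0
  · rw [h4]; norm_num
  · rw [div_self h4]

lemma mu_cond {u : U} {v : V} (h : Q.nbr u v) (b : S) :
    ∑ a, Q.mu u a * Q.cond u v a b = Q.mu u b := by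
  unfold cond
  have e : ∀ a, Q.mu u a * (if Q.proj u v b = Q.proj u v a then
      Q.mu u b / Q.lam v (Q.proj u v a) else 0) =
      if Q.proj u v a = Q.proj u v b then Q.mu u a * (Q.mu u b / Q.lam v (Q.proj u v b)) else 0 := by
    intro a
    by_cases h1 : Q.proj u v a = Q.proj u v b
    · rw [if_pos h1, if_pos h1.symm, h1]
    · rw [if_neg h1, if_neg (Ne.symm h1), mul_zero]
  simp_rw [e]
  rw [← Finset.sum_filter, ← Finset.sum_mul, Q.marginal u v h]
  by_cases h4 : Q.lam v (Q.proj u v b) = 0
  · rw [h4, Q.mu_eq_zero h h4]; simp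
  · field_simp

/-- stationarity of the resampling of the first label across tables -/
lemma joint_cond {u u' : U} {v : V} (hu : u ≠ u') (h : Q.nbr u v) (b b' : S) :
    ∑ a, Q.joint u u' v a b' * Q.cond u v a b = Q.joint u u' v b b' := by
  unfold joint cond
  simp only [if_neg hu]
  by_cases hb : Q.proj u v b = Q.proj u' v b'
  · rw [if_pos hb]
    have e : ∀ a, (if Q.proj u v a = Q.proj u' v b' then
        Q.mu u a * Q.mu u' b' / Q.lam v (Q.proj u v a) else 0) *
        (if Q.proj u v b = Q.proj u v a then Q.mu u b / Q.lam v (Q.proj u v a) else 0) =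
        if Q.proj u v a = Q.proj u v b then
          Q.mu u a * (Q.mu u' b' / Q.lam v (Q.proj u v b) * (Q.mu u b / Q.lam v (Q.proj u v b)))
          else 0 := by
      intro a
      by_cases h1 : Q.proj u v a = Q.proj u v b
      · rw [if_pos h1, if_pos h1.symm, if_pos (h1.trans hb), h1]
        ring
      · rw [if_neg h1, if_neg (Ne.symm h1), mul_zero]
    simp_rw [e]
    rw [← Finset.sum_filter, ← Finset.sum_mul, Q.marginal u v h]
    by_cases h4 : Q.lam v (Q.proj u v b) = 0
    · rw [h4]; simp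
    · field_simp
  · rw [if_neg hb]
    refine Finset.sum_eq_zero fun a _ => ?_
    by_cases h1 : Q.proj u v b = Q.proj u v a
    · rw [if_neg (fun h2 => hb (h1.trans h2)), zero_mul]
    · rw [if_neg h1, mul_zero]

end Source

variable {I A : Type} [Fintype I]
variable (Q : I → Source U V S G)

/-- influence of the coordinate `i` on the function `h` -/
noncomputable def infl (u : I → U) (h : (I → S) → A) (i : I) : ℝ :=
  ex (fun j => (Q j).mu (u j)) (fun a => ∑ b, (Q i).mu (u i) b * ind (h a ≠ h (Function.update a i b)))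

/-- influence of the coordinate `i` given its projection to `v` -/
noncomputable def cinfl (u : I → U) (h : (I → S) → A) (i : I) (v : V) : ℝ :=
  ex (fun j => (Q j).mu (u j))
    (fun a => ∑ b, (Q i).cond (u i) v (a i) b * ind (h a ≠ h (Function.update a i b)))

lemma infl_nonneg (u : I → U) (h : (I → S) → A) (i : I) : 0 ≤ infl Q u h i :=
  ex_nonneg (fun j _ => (Q j).mu_nonneg _ _) fun _ =>
    Finset.sum_nonneg fun _ _ => mul_nonneg ((Q i).mu_nonneg _ _) (ind_nonneg _)

lemma cinfl_nonneg {u : I → U} (h : (I → S) → A) {i : I} {v : V} (hv : (Q i).nbr (u i) v) :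
    0 ≤ cinfl Q u h i v :=
  ex_nonneg (fun j _ => (Q j).mu_nonneg _ _) fun _ =>
    Finset.sum_nonneg fun _ _ => mul_nonneg ((Q i).cond_nonneg hv _ _) (ind_nonneg _)

lemma update_self_mu (u : I → U) (i : I) (f : (I → S) → ℝ) :
    ex (fun j => (Q j).mu (u j)) (fun a => ∑ c, (Q i).mu (u i) c * f (Function.update a i c)) =
      ex (fun j => (Q j).mu (u j)) f := by
  rw [ex_resample (fun j => (Q j).mu (u j)) i (fun _ c => (Q i).mu (u i) c) f]
  congr 1
  have : (fun c => ∑ y, (Q i).mu (u i) y * (Q i).mu (u i) c) = (Q i).mu (u i) := by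
    funext c
    rw [← Finset.sum_mul, (Q i).mu_sum, one_mul]
  rw [this]
  exact Function.update_eq_self i _

lemma infl_eq (u : I → U) (h : (I → S) → A) (i : I) :
    infl Q u h i = ex (fun j => (Q j).mu (u j))
      (fun a => (Q i).diff (u i) (fun s => h (Function.update a i s))) := by
  unfold infl
  rw [← update_self_mu Q u i]
  congr 1
  funext a
  unfold Source.diff
  refine Finset.sum_congr rfl fun c _ => ?_
  rw [Finset.mul_sum]
  refine Finset.sum_congr rfl fun b _ => ?_
  rw [Function.update_idem]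
  unfold ind
  by_cases h1 : h (Function.update a i c) = h (Function.update a i b)
  · simp [h1]
  · simp [h1]

lemma cinfl_eq (u : I → U) (h : (I → S) → A) (i : I) (v : V) :
    cinfl Q u h i v = ex (fun j => (Q j).mu (u j))
      (fun a => (Q i).diffAt (u i) v (fun s => h (Function.update a i s))) := by
  unfold cinfl
  rw [← update_self_mu Q u i]
  congr 1
  funext a
  unfold Source.diffAt
  refine Finset.sum_congr rfl fun c _ => ?_
  rw [Finset.mul_sum]
  refine Finset.sum_congr rfl fun b _ => ?_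
  rw [Function.update_idem, Function.update_self]
  unfold ind
  by_cases h1 : h (Function.update a i c) = h (Function.update a i b)
  · simp [h1]
  · simp [h1]

lemma ex_mul (ρ : I → S → ℝ) (c : ℝ) (f : (I → S) → ℝ) : ex ρ (fun z => c * f z) = c * ex ρ f := by
  unfold ex
  rw [Finset.mul_sum]
  exact Finset.sum_congr rfl fun z _ => by ring

lemma infl_le {κ : ℝ} {u : I → U} {i : I} (hQ : (Q i).Spread A κ) (h : (I → S) → A) {v v' : V}
    (hv : (Q i).nbr (u i) v) (hv' : (Q i).nbr (u i) v') (hne : v ≠ v') :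
    infl Q u h i ≤ κ * (cinfl Q u h i v + cinfl Q u h i v') := by
  rw [infl_eq, cinfl_eq, cinfl_eq, ← ex_add, ← ex_mul]
  exact ex_mono (fun j z => (Q j).mu_nonneg _ _) fun a => hQ _ _ _ hv hv' hne _

/-- the joint law of the pairs of labels -/
noncomputable def jl (u u' : I → U) (v : I → V) (i : I) (z : S × S) : ℝ :=
  (Q i).joint (u i) (u' i) (v i) z.1 z.2

/-- the probability of a violation for the pair of tables -/
noncomputable def pv (u u' : I → U) (v : I → V) (h h' : (I → S) → A) (π : Equiv.Perm A) : ℝ :=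
  ex (jl Q u u' v) (fun z => ind (π (h fun i => (z i).1) ≠ h' fun i => (z i).2))

/-- admissible pairs -/
def Adj (u u' : I → U) (v : I → V) : Prop :=
  ∀ i, u i ≠ u' i → (Q i).nbr (u i) (v i) ∧ (Q i).nbr (u' i) (v i)

variable {Q}

lemma Adj.symm {u u' : I → U} {v : I → V} (h : Adj Q u u' v) : Adj Q u' u v :=
  fun i hi => (h i (Ne.symm hi)).symm

lemma jl_nonneg {u u' : I → U} {v : I → V} (h : Adj Q u u' v) (i : I) (z : S × S) :
    0 ≤ jl Q u u' v i z := (Q i).joint_nonneg (h i) _ _

lemma jl_fst {u u' : I → U} {v : I → V} (h : Adj Q u u' v) (i : I) (a : S) :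
    ∑ z : S × S, (if z.1 = a then jl Q u u' v i z else 0) = (Q i).mu (u i) a := by
  rw [← (Q i).sum_joint_right (h i) a, Fintype.sum_prod_type, Finset.sum_eq_single a]
  · unfold jl; simp
  · intro b _ hb
    simp [hb]
  · simp

lemma jl_snd {u u' : I → U} {v : I → V} (h : Adj Q u u' v) (i : I) (a : S) :
    ∑ z : S × S, (if z.2 = a then jl Q u u' v i z else 0) = (Q i).mu (u' i) a := by
  rw [← (Q i).sum_joint_left (h i) a, Fintype.sum_prod_type_right, Finset.sum_eq_single a]
  · unfold jl; simp
  · intro b _ hb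
    simp [hb]
  · simp

lemma jl_sum {u u' : I → U} {v : I → V} (h : Adj Q u u' v) (i : I) :
    ∑ z : S × S, jl Q u u' v i z = 1 := by
  rw [← (Q i).mu_sum (u i), ← Finset.sum_congr rfl fun a _ => jl_fst h i a, Finset.sum_comm]
  refine Finset.sum_congr rfl fun z _ => ?_
  simp

lemma pv_nonneg {u u' : I → U} {v : I → V} (h : Adj Q u u' v) (f f' : (I → S) → A)
    (π : Equiv.Perm A) : 0 ≤ pv Q u u' v f f' π :=
  ex_nonneg (jl_nonneg h) fun _ => ind_nonneg _

lemma pv_symm (u u' : I → U) (v : I → V) (f f' : (I → S) → A) (π : Equiv.Perm A) :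
    pv Q u u' v f f' π = pv Q u' u v f' f π.symm := by
  unfold pv
  have h1 := ex_push (jl Q u u' v) (fun _ (z : S × S) => z.swap)
    (fun z => ind (π.symm (f' fun i => (z i).1) ≠ f fun i => (z i).2))
  refine Eq.trans ?_ (h1.trans ?_)
  · congr 1
    funext z
    simp only [Prod.fst_swap, Prod.snd_swap]
    unfold ind
    by_cases h3 : π (f fun i => (z i).1) = f' fun i => (z i).2
    · have h4 : π.symm (f' fun i => (z i).2) = f fun i => (z i).1 := by
        rw [← h3, Equiv.symm_apply_apply]
      rw [if_neg (not_not.2 h3), if_neg (not_not.2 h4)]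
    · have h4 : π.symm (f' fun i => (z i).2) ≠ f fun i => (z i).1 := by
        intro h5
        exact h3 (by rw [← h5, Equiv.apply_symm_apply])
      rw [if_pos h3, if_pos h4]
  · congr 1
    funext i y
    rw [Finset.sum_eq_single y.swap]
    · rw [if_pos (Prod.swap_swap y)]
      unfold jl
      exact (Q i).joint_symm _ _
    · intro z _ hz
      rw [if_neg]
      intro h3
      apply hz
      rw [← h3, Prod.swap_swap]
    · simp

/-- laws of pairs with the right marginals -/
def Marg (Q : I → Source U V S G) (u u' : I → U) (σ : I → S × S → ℝ) : Prop :=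
  (∀ i z, 0 ≤ σ i z) ∧ (∀ i a, ∑ z : S × S, (if z.1 = a then σ i z else 0) = (Q i).mu (u i) a) ∧
    (∀ i a, ∑ z : S × S, (if z.2 = a then σ i z else 0) = (Q i).mu (u' i) a)

lemma Marg.sum {u u' : I → U} {σ : I → S × S → ℝ} (h : Marg Q u u' σ) (i : I) :
    ∑ z : S × S, σ i z = 1 := by
  rw [← (Q i).mu_sum (u i), ← Finset.sum_congr rfl fun a _ => h.2.1 i a, Finset.sum_comm]
  refine Finset.sum_congr rfl fun z _ => ?_
  simp

lemma marg_jl {u u' : I → U} {v : I → V} (h : Adj Q u u' v) : Marg Q u u' (jl Q u u' v) :=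
  ⟨jl_nonneg h, jl_fst h, jl_snd h⟩

lemma ex_fst {u u' : I → U} {σ : I → S × S → ℝ} (h : Marg Q u u' σ) (f : (I → S) → ℝ) :
    ex σ (fun z => f fun i => (z i).1) = ex (fun j => (Q j).mu (u j)) f := by
  rw [ex_push σ (fun _ z => z.1) f]
  congr 1
  funext i a
  exact h.2.1 i a

lemma ex_snd {u u' : I → U} {σ : I → S × S → ℝ} (h : Marg Q u u' σ) (f : (I → S) → ℝ) :
    ex σ (fun z => f fun i => (z i).2) = ex (fun j => (Q j).mu (u' j)) f := by
  rw [ex_push σ (fun _ z => z.2) f]
  congr 1
  funext i a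
  exact h.2.2 i a

lemma sum_fst {u u' : I → U} {σ : I → S × S → ℝ} (h : Marg Q u u' σ) (i : I) (f : S → ℝ) :
    ∑ c : S × S, σ i c * f c.1 = ∑ b, (Q i).mu (u i) b * f b := by
  have e : ∀ b, (Q i).mu (u i) b * f b =
      ∑ z : S × S, (if z.1 = b then σ i z else 0) * f b := by
    intro b
    rw [← Finset.sum_mul, h.2.1 i b]
  simp_rw [e]
  rw [Finset.sum_comm]
  refine Finset.sum_congr rfl fun c _ => ?_
  rw [Finset.sum_eq_single c.1]
  · simp
  · intro b _ hb
    rw [if_neg (Ne.symm hb), zero_mul]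
  · simp

lemma sum_snd {u u' : I → U} {σ : I → S × S → ℝ} (h : Marg Q u u' σ) (i : I) (f : S → ℝ) :
    ∑ c : S × S, σ i c * f c.2 = ∑ b, (Q i).mu (u' i) b * f b := by
  have e : ∀ b, (Q i).mu (u' i) b * f b =
      ∑ z : S × S, (if z.2 = b then σ i z else 0) * f b := by
    intro b
    rw [← Finset.sum_mul, h.2.2 i b]
  simp_rw [e]
  rw [Finset.sum_comm]
  refine Finset.sum_congr rfl fun c _ => ?_
  rw [Finset.sum_eq_single c.2]
  · simp
  · intro b _ hb
    rw [if_neg (Ne.symm hb), zero_mul]
  · simp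

lemma infl_fst {u u' : I → U} {σ ρ : I → S × S → ℝ} (hσ : Marg Q u u' σ) (hρ : Marg Q u u' ρ)
    (h : (I → S) → A) (i : I) :
    ex σ (fun z => ∑ c : S × S, ρ i c *
      ind (h (fun j => (z j).1) ≠ h (Function.update (fun j => (z j).1) i c.1))) = infl Q u h i := by
  unfold infl
  rw [← ex_fst hσ]
  congr 1
  funext z
  exact sum_fst hρ i (fun b => ind (h (fun j => (z j).1) ≠ h (Function.update (fun j => (z j).1) i b)))

lemma infl_snd {u u' : I → U} {σ ρ : I → S × S → ℝ} (hσ : Marg Q u u' σ) (hρ : Marg Q u u' ρ)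
    (h : (I → S) → A) (i : I) :
    ex σ (fun z => ∑ c : S × S, ρ i c *
      ind (h (fun j => (z j).2) ≠ h (Function.update (fun j => (z j).2) i c.2))) = infl Q u' h i := by
  unfold infl
  rw [← ex_snd hσ]
  congr 1
  funext z
  exact sum_snd hρ i (fun b => ind (h (fun j => (z j).2) ≠ h (Function.update (fun j => (z j).2) i b)))

lemma fst_update (z : I → S × S) (i : I) (c : S × S) :
    (fun j => (Function.update z i c j).1) = Function.update (fun j => (z j).1) i c.1 := by
  funext j
  by_cases hj : j = i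
  · subst hj; simp
  · simp [hj]

lemma snd_update (z : I → S × S) (i : I) (c : S × S) :
    (fun j => (Function.update z i c j).2) = Function.update (fun j => (z j).2) i c.2 := by
  funext j
  by_cases hj : j = i
  · subst hj; simp
  · simp [hj]

/-- changing the law of one coordinate -/
lemma hybrid_step {u u' : I → U} {σ ρ : I → S × S → ℝ} (hσ : Marg Q u u' σ) (hρ : Marg Q u u' ρ)
    (h h' : (I → S) → A) (π : Equiv.Perm A) (i : I) :
    ex (Function.update σ i (ρ i)) (fun z => ind (π (h fun i => (z i).1) ≠ h' fun i => (z i).2)) ≤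
      ex σ (fun z => ind (π (h fun i => (z i).1) ≠ h' fun i => (z i).2)) +
        (infl Q u h i + infl Q u' h' i) := by
  have e1 : Function.update σ i (ρ i) = Function.update σ i (fun c => ∑ y, σ i y * ρ i c) := by
    congr 1
    funext c
    rw [← Finset.sum_mul, hσ.sum, one_mul]
  rw [e1, ← ex_resample σ i (fun _ c => ρ i c), ← infl_fst hσ hρ h i, ← infl_snd hσ hρ h' i,
    ← ex_add, ← ex_add]
  refine ex_mono hσ.1 fun z => ?_
  have e2 : ind (π (h fun i => (z i).1) ≠ h' fun i => (z i).2) =
      ∑ c, ρ i c * ind (π (h fun i => (z i).1) ≠ h' fun i => (z i).2) := by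
    rw [← Finset.sum_mul, hρ.sum, one_mul]
  rw [e2, ← Finset.sum_add_distrib, ← Finset.sum_add_distrib]
  refine Finset.sum_le_sum fun c _ => ?_
  rw [← mul_add, ← mul_add]
  refine mul_le_mul_of_nonneg_left ?_ (hρ.1 i c)
  rw [← add_assoc]
  refine ind_or3 fun h1 => ?_
  rw [fst_update, snd_update] at h1
  by_contra h2
  push Not at h2
  obtain ⟨h3, h4, h5⟩ := h2
  exact h1 (by rw [← h4, h3, h5])

/-- changing the laws of the coordinates in `M` -/
lemma hybrid {u u' : I → U} {σ ρ : I → S × S → ℝ} (hσ : Marg Q u u' σ) (hρ : Marg Q u u' ρ)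
    (h h' : (I → S) → A) (π : Equiv.Perm A) (M : Finset I) (hM : ∀ i ∉ M, ρ i = σ i) :
    ex ρ (fun z => ind (π (h fun i => (z i).1) ≠ h' fun i => (z i).2)) ≤
      ex σ (fun z => ind (π (h fun i => (z i).1) ≠ h' fun i => (z i).2)) +
        ∑ i ∈ M, (infl Q u h i + infl Q u' h' i) := by
  have key : ∀ T : Finset I, ex (fun i => if i ∈ T then ρ i else σ i)
      (fun z => ind (π (h fun i => (z i).1) ≠ h' fun i => (z i).2)) ≤
      ex σ (fun z => ind (π (h fun i => (z i).1) ≠ h' fun i => (z i).2)) +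
        ∑ i ∈ T, (infl Q u h i + infl Q u' h' i) := by
    intro T
    induction T using Finset.induction_on with
    | empty => simp
    | insert i T hi ih =>
      rw [Finset.sum_insert hi]
      have hm : Marg Q u u' (fun i => if i ∈ T then ρ i else σ i) := by
        refine ⟨fun j z => ?_, fun j a => ?_, fun j a => ?_⟩
        · show 0 ≤ (if j ∈ T then ρ j else σ j) z
          split_ifs
          · exact hρ.1 j z
          · exact hσ.1 j z
        · by_cases hj : j ∈ T
          · simp only [if_pos hj]; exact hρ.2.1 j a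
          · simp only [if_neg hj]; exact hσ.2.1 j a
        · by_cases hj : j ∈ T
          · simp only [if_pos hj]; exact hρ.2.2 j a
          · simp only [if_neg hj]; exact hσ.2.2 j a
      have e : (fun j => if j ∈ insert i T then ρ j else σ j) =
          Function.update (fun j => if j ∈ T then ρ j else σ j) i (ρ i) := by
        funext j
        by_cases hj : j = i
        · subst hj; simp
        · rw [Function.update_of_ne hj]
          simp [Finset.mem_insert, hj]
      rw [e]
      have := hybrid_step hm hρ h h' π i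
      linarith
  have e : (fun i => if i ∈ M then ρ i else σ i) = ρ := by
    funext i
    by_cases hi : i ∈ M
    · rw [if_pos hi]
    · rw [if_neg hi, hM i hi]
  have := key M
  rw [e] at this
  exact this

end Run7.h881.CK
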