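import Mathlib
import Pool.Agent.Run7.h881.CK.Basic

set_option autoImplicit false
set_option linter.unusedSectionVars false

namespace Run7.h881.CK

open Finset
open scoped Classical

variable {U V S G : Type} [Fintype S] [DecidableEq G]
variable {I A : Type} [Fintype I] {Q : I → Source U V S G}

lemma infl_lip {u u' : I → U} {v : I → V} (hA : Adj Q u u' v) (h h' : (I → S) → A)
    (π : Equiv.Perm A) (i : I) :
    infl Q u' h' i ≤ infl Q u h i + 2 * pv Q u u' v h h' π := by
  have hm := marg_jl hA
  have e1 : pv Q u u' v h h' π = ex (jl Q u u' v) (fun z => ∑ c, jl Q u u' v i c *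
      ind (π (h fun j => (Function.update z i c j).1) ≠ h' fun j => (Function.update z i c j).2)) := by
    rw [ex_resample (jl Q u u' v) i (fun _ c => jl Q u u' v i c)
      (fun z => ind (π (h fun i => (z i).1) ≠ h' fun i => (z i).2))]
    have : (fun c => ∑ y, jl Q u u' v i y * jl Q u u' v i c) = jl Q u u' v i := by
      funext c
      rw [← Finset.sum_mul, hm.sum, one_mul]
    rw [this, Function.update_eq_self]
    rfl
  have e2 : pv Q u u' v h h' π = ex (jl Q u u' v) (fun z => ∑ c, jl Q u u' v i c *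
      ind (π (h fun j => (z j).1) ≠ h' fun j => (z j).2)) := by
    unfold pv
    congr 1
    funext z
    rw [← Finset.sum_mul, hm.sum, one_mul]
  rw [← infl_snd hm hm h' i, ← infl_fst hm hm h i, two_mul]
  nth_rewrite 1 [e2]
  rw [e1, ← ex_add, ← ex_add]
  refine ex_mono hm.1 fun z => ?_
  rw [← Finset.sum_add_distrib, ← Finset.sum_add_distrib]
  refine Finset.sum_le_sum fun c _ => ?_
  rw [← mul_add, ← mul_add]
  refine mul_le_mul_of_nonneg_left ?_ (hm.1 i c)
  rw [← add_assoc]
  refine ind_or3 fun h1 => ?_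
  rw [fst_update, snd_update]
  by_contra h2
  push Not at h2
  obtain ⟨h3, h4, h5⟩ := h2
  exact h1 (by rw [← h4, h3, h5])

lemma infl_lip' {u u' : I → U} {v : I → V} (hA : Adj Q u u' v) (h h' : (I → S) → A)
    (π : Equiv.Perm A) (i : I) :
    infl Q u h i ≤ infl Q u' h' i + 2 * pv Q u u' v h h' π := by
  rw [pv_symm]
  exact infl_lip hA.symm h' h π.symm i

/-- weights supported on a set -/
lemma ex_congr {Z : Type} [Fintype Z] {ρ : I → Z → ℝ} {f g : (I → Z) → ℝ}
    (h : ∀ z, (∏ i, ρ i (z i)) ≠ 0 → f z = g z) : ex ρ f = ex ρ g := by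
  unfold ex
  refine Finset.sum_congr rfl fun z _ => ?_
  by_cases h1 : ∏ i, ρ i (z i) = 0
  · rw [h1, zero_mul, zero_mul]
  · rw [h z h1]

lemma cinfl_lip {u u' : I → U} {v : I → V} (hA : Adj Q u u' v) (h h' : (I → S) → A)
    (π : Equiv.Perm A) {i : I} (hi : u i = u' i) {v0 : V} (hv0 : (Q i).nbr (u i) v0) :
    cinfl Q u' h' i v0 ≤ cinfl Q u h i v0 + 2 * pv Q u u' v h h' π := by
  have hm := marg_jl hA
  let K : S × S → S × S → ℝ := fun y c => if c.1 = c.2 then (Q i).cond (u i) v0 y.1 c.1 else 0
  have hK0 : ∀ y c, 0 ≤ K y c := by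
    intro y c
    simp only [K]
    split_ifs
    · exact (Q i).cond_nonneg hv0 _ _
    · exact le_rfl
  have hsum : ∀ (y : S × S) (f : S × S → ℝ), ∑ c, K y c * f c =
      ∑ b, (Q i).cond (u i) v0 y.1 b * f (b, b) := by
    intro y f
    rw [Fintype.sum_prod_type]
    refine Finset.sum_congr rfl fun b _ => ?_
    rw [Finset.sum_eq_single b]
    · simp [K]
    · intro b' _ hb'
      simp [K, Ne.symm hb']
    · simp
  have hK1 : ∀ y, ∑ c, K y c ≤ 1 := by
    intro y
    have h1 := hsum y (fun _ => 1)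
    simp only [mul_one] at h1
    rw [h1]
    exact (Q i).cond_sum_le hv0 _
  have hjl : ∀ y, jl Q u u' v i y = if y.1 = y.2 then (Q i).mu (u i) y.1 else 0 := by
    intro y
    unfold jl Source.joint
    rw [if_pos hi]
  have hsupp : ∀ z : I → S × S, (∏ j, jl Q u u' v j (z j)) ≠ 0 → (z i).1 = (z i).2 := by
    intro z hz
    by_contra h1
    apply hz
    refine Finset.prod_eq_zero (Finset.mem_univ i) ?_
    rw [hjl, if_neg h1]
  have hstat : (fun c => ∑ y, jl Q u u' v i y * K y c) = jl Q u u' v i := by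
    funext c
    rw [hjl]
    simp_rw [hjl]
    rw [Fintype.sum_prod_type]
    have e : ∀ x : S, ∑ y : S, (if (x, y).1 = (x, y).2 then (Q i).mu (u i) (x, y).1 else 0) * K (x, y) c =
        (Q i).mu (u i) x * K (x, x) c := by
      intro x
      rw [Finset.sum_eq_single x]
      · simp
      · intro y _ hy
        simp [Ne.symm hy]
      · simp
    simp_rw [e]
    simp only [K]
    by_cases hc : c.1 = c.2
    · simp only [if_pos hc]
      exact (Q i).mu_cond hv0 _
    · simp [if_neg hc]
  -- the three terms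
  have e0 : cinfl Q u' h' i v0 = ex (jl Q u u' v) (fun z => ∑ c, K (z i) c *
      ind (h' (fun j => (z j).2) ≠ h' (Function.update (fun j => (z j).2) i c.2))) := by
    unfold cinfl
    rw [← ex_snd hm]
    refine ex_congr fun z hz => ?_
    rw [hsum]
    simp only
    rw [hsupp z hz, hi]
  have e3 : cinfl Q u h i v0 = ex (jl Q u u' v) (fun z => ∑ c, K (z i) c *
      ind (h (fun j => (z j).1) ≠ h (Function.update (fun j => (z j).1) i c.1))) := by
    unfold cinfl
    rw [← ex_fst hm]
    refine ex_congr fun z _ => ?_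
    rw [hsum]
  have e1 : pv Q u u' v h h' π = ex (jl Q u u' v) (fun z => ∑ c, K (z i) c *
      ind (π (h fun j => (Function.update z i c j).1) ≠ h' fun j => (Function.update z i c j).2)) := by
    rw [ex_resample (jl Q u u' v) i K
      (fun z => ind (π (h fun i => (z i).1) ≠ h' fun i => (z i).2)), hstat, Function.update_eq_self]
    rfl
  have e2 : ex (jl Q u u' v) (fun z => ∑ c, K (z i) c *
      ind (π (h fun j => (z j).1) ≠ h' fun j => (z j).2)) ≤ pv Q u u' v h h' π := by
    unfold pv
    refine ex_mono hm.1 fun z => ?_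
    rw [← Finset.sum_mul]
    exact mul_le_of_le_one_left (ind_nonneg _) (hK1 _)
  have e4 : cinfl Q u' h' i v0 ≤ cinfl Q u h i v0 + (ex (jl Q u u' v) (fun z => ∑ c, K (z i) c *
      ind (π (h fun j => (z j).1) ≠ h' fun j => (z j).2)) + pv Q u u' v h h' π) := by
    rw [e0, e3, e1, ← ex_add, ← ex_add]
    refine ex_mono hm.1 fun z => ?_
    rw [← Finset.sum_add_distrib, ← Finset.sum_add_distrib]
    refine Finset.sum_le_sum fun c _ => ?_
    rw [← mul_add, ← mul_add]
    refine mul_le_mul_of_nonneg_left ?_ (hK0 _ c)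
    rw [← add_assoc]
    refine ind_or3 fun h1 => ?_
    rw [fst_update, snd_update]
    by_contra h2
    push Not at h2
    obtain ⟨h3, h4, h5⟩ := h2
    exact h1 (by rw [← h4, h3, h5])
  linarith

lemma cinfl_lip' {u u' : I → U} {v : I → V} (hA : Adj Q u u' v) (h h' : (I → S) → A)
    (π : Equiv.Perm A) {i : I} (hi : u i = u' i) {v0 : V} (hv0 : (Q i).nbr (u i) v0) :
    cinfl Q u h i v0 ≤ cinfl Q u' h' i v0 + 2 * pv Q u u' v h h' π := by
  rw [pv_symm]
  exact cinfl_lip hA.symm h' h π.symm hi.symm (hi ▸ hv0)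

lemma cinfl_cross {u u' : I → U} {v : I → V} (hA : Adj Q u u' v) (h h' : (I → S) → A)
    (π : Equiv.Perm A) {i : I} (hi : u i ≠ u' i) :
    cinfl Q u h i (v i) ≤ 2 * pv Q u u' v h h' π := by
  have hm := marg_jl hA
  have hv0 := (hA i hi).1
  let K : S × S → S × S → ℝ := fun y c => if y.2 = c.2 then (Q i).cond (u i) (v i) y.1 c.1 else 0
  have hK0 : ∀ y c, 0 ≤ K y c := by
    intro y c
    simp only [K]
    split_ifs
    · exact (Q i).cond_nonneg hv0 _ _
    · exact le_rfl
  have hsum : ∀ (y : S × S) (f : S × S → ℝ), ∑ c, K y c * f c =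
      ∑ b, (Q i).cond (u i) (v i) y.1 b * f (b, y.2) := by
    intro y f
    rw [Fintype.sum_prod_type]
    refine Finset.sum_congr rfl fun b _ => ?_
    rw [Finset.sum_eq_single y.2]
    · simp [K]
    · intro b' _ hb'
      simp [K, Ne.symm hb']
    · simp
  have hK1 : ∀ y, ∑ c, K y c ≤ 1 := by
    intro y
    have h1 := hsum y (fun _ => 1)
    simp only [mul_one] at h1
    rw [h1]
    exact (Q i).cond_sum_le hv0 _
  have hstat : (fun c => ∑ y, jl Q u u' v i y * K y c) = jl Q u u' v i := by
    funext c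
    rw [Fintype.sum_prod_type]
    have e : ∀ x : S, ∑ y : S, jl Q u u' v i (x, y) * K (x, y) c =
        (Q i).joint (u i) (u' i) (v i) x c.2 * (Q i).cond (u i) (v i) x c.1 := by
      intro x
      rw [Finset.sum_eq_single c.2]
      · simp [K, jl]
      · intro y _ hy
        simp [K, hy]
      · simp
    simp_rw [e]
    exact (Q i).joint_cond hi hv0 _ _
  have e3 : cinfl Q u h i (v i) = ex (jl Q u u' v) (fun z => ∑ c, K (z i) c *
      ind (h (fun j => (z j).1) ≠ h (Function.update (fun j => (z j).1) i c.1))) := by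
    unfold cinfl
    rw [← ex_fst hm]
    refine ex_congr fun z _ => ?_
    rw [hsum]
  have e1 : pv Q u u' v h h' π = ex (jl Q u u' v) (fun z => ∑ c, K (z i) c *
      ind (π (h fun j => (Function.update z i c j).1) ≠ h' fun j => (Function.update z i c j).2)) := by
    rw [ex_resample (jl Q u u' v) i K
      (fun z => ind (π (h fun i => (z i).1) ≠ h' fun i => (z i).2)), hstat, Function.update_eq_self]
    rfl
  have e2 : ex (jl Q u u' v) (fun z => ∑ c, K (z i) c *
      ind (π (h fun j => (z j).1) ≠ h' fun j => (z j).2)) ≤ pv Q u u' v h h' π := by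
    unfold pv
    refine ex_mono hm.1 fun z => ?_
    rw [← Finset.sum_mul]
    exact mul_le_of_le_one_left (ind_nonneg _) (hK1 _)
  have e4 : cinfl Q u h i (v i) ≤ ex (jl Q u u' v) (fun z => ∑ c, K (z i) c *
      ind (π (h fun j => (z j).1) ≠ h' fun j => (z j).2)) + pv Q u u' v h h' π := by
    rw [e3, e1, ← ex_add]
    refine ex_mono hm.1 fun z => ?_
    rw [← Finset.sum_add_distrib]
    refine Finset.sum_le_sum fun c _ => ?_
    rw [← mul_add]
    by_cases hc : (z i).2 = c.2
    · refine mul_le_mul_of_nonneg_left ?_ (hK0 _ c)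
      refine ind_or fun h1 => ?_
      rw [fst_update, snd_update]
      have h6 : Function.update (fun j => (z j).2) i c.2 = fun j => (z j).2 := by
        rw [← hc]
        exact Function.update_eq_self i (fun j => (z j).2)
      rw [h6]
      by_contra h2
      push Not at h2
      obtain ⟨h3, h4⟩ := h2
      exact h1 (π.injective (h3.trans h4.symm))
    · simp only [K, if_neg hc, zero_mul, le_refl]
  linarith

lemma cinfl_cross' {u u' : I → U} {v : I → V} (hA : Adj Q u u' v) (h h' : (I → S) → A)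
    (π : Equiv.Perm A) {i : I} (hi : u i ≠ u' i) :
    cinfl Q u' h' i (v i) ≤ 2 * pv Q u u' v h h' π := by
  rw [pv_symm]
  exact cinfl_cross hA.symm h' h π.symm (Ne.symm hi)

end Run7.h881.CK
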