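import Mathlib
import Pool.Agent.Run7.h881.CK.Lip

set_option autoImplicit false
set_option linter.unusedSectionVars false

namespace Run7.h881.CK

open Finset
open scoped Classical

/-- a threshold that lies in few of the given intervals, with weights -/
lemma exists_threshold {E : Type} [Fintype E] (lo len W : E → ℝ) (hl : ∀ e, 0 ≤ len e)
    (hW : ∀ e, 0 ≤ W e) {a b : ℝ} (hab : a < b) : ∃ s, a < s ∧ s < b ∧
      (∑ e, W e * ind (lo e ≤ s ∧ s ≤ lo e + len e)) * (b - a) ≤ ∑ e, W e * len e := by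
  let f : ℝ → ℝ := fun s => ∑ e, W e * Set.indicator (Set.Icc (lo e) (lo e + len e)) (fun _ => (1 : ℝ)) s
  have hint : ∀ e, MeasureTheory.Integrable
      (Set.indicator (Set.Icc (lo e) (lo e + len e)) (fun _ => (1 : ℝ))) := by
    intro e
    rw [MeasureTheory.integrable_indicator_iff measurableSet_Icc]
    refine MeasureTheory.integrableOn_const ?_ (by simp)
    rw [Real.volume_Icc]
    exact ENNReal.ofReal_ne_top
  have hval : ∀ e, ∫ s, Set.indicator (Set.Icc (lo e) (lo e + len e)) (fun _ => (1 : ℝ)) s = len e := by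
    intro e
    rw [MeasureTheory.integral_indicator measurableSet_Icc, MeasureTheory.setIntegral_const,
      MeasureTheory.measureReal_def, Real.volume_Icc, ENNReal.toReal_ofReal (by linarith [hl e])]
    simp
  have hf : MeasureTheory.Integrable f :=
    MeasureTheory.integrable_finsetSum _ fun e _ => (hint e).const_mul _
  have hf0 : ∀ s, 0 ≤ f s := fun s =>
    Finset.sum_nonneg fun e _ => mul_nonneg (hW e) (Set.indicator_nonneg (fun _ _ => zero_le_one) s)
  have htot : ∫ s, f s = ∑ e, W e * len e := by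
    rw [MeasureTheory.integral_finsetSum _ fun e _ => (hint e).const_mul _]
    refine Finset.sum_congr rfl fun e _ => ?_
    rw [MeasureTheory.integral_const_mul, hval]
  have hvol : MeasureTheory.volume (Set.Ioo a b) = ENNReal.ofReal (b - a) := Real.volume_Ioo
  obtain ⟨s, hs, hle⟩ := MeasureTheory.exists_le_setAverage (μ := MeasureTheory.volume)
    (s := Set.Ioo a b) (f := f) (by rw [hvol]; simp [hab]) (by rw [hvol]; exact ENNReal.ofReal_ne_top)
    hf.integrableOn
  refine ⟨s, hs.1, hs.2, ?_⟩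
  have hcard : ∑ e, W e * ind (lo e ≤ s ∧ s ≤ lo e + len e) = f s := by
    simp only [f]
    refine Finset.sum_congr rfl fun e _ => ?_
    unfold ind
    by_cases h : lo e ≤ s ∧ s ≤ lo e + len e
    · rw [if_pos h, Set.indicator_of_mem (show s ∈ Set.Icc _ _ from h)]
    · rw [if_neg h, Set.indicator_of_notMem (show s ∉ Set.Icc _ _ from h)]
  rw [hcard]
  have hba : 0 < b - a := by linarith
  rw [MeasureTheory.setAverage_eq, MeasureTheory.measureReal_def, hvol,
    ENNReal.toReal_ofReal hba.le] at hle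
  have h1 : ∫ x in Set.Ioo a b, f x ≤ ∑ e, W e * len e := by
    rw [← htot]
    exact MeasureTheory.setIntegral_le_integral hf (Filter.Eventually.of_forall hf0)
  calc f s * (b - a) ≤ ((b - a)⁻¹ • ∫ x in Set.Ioo a b, f x) * (b - a) :=
        mul_le_mul_of_nonneg_right hle hba.le
    _ = ∫ x in Set.Ioo a b, f x := by
        rw [smul_eq_mul]; field_simp
    _ ≤ _ := h1

variable {U V S G : Type} [Fintype S] [DecidableEq G]
variable {I : Type} [Fintype I] {Q : I → Source U V S G}
variable {W E A : Type} (R : Composed Q W E A)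

namespace Composed

lemma adj' (e : E) : Adj Q (R.own (R.src e)) (R.own (R.tgt e)) (R.via e) := R.adj e

/-- the honest violation probability as an expectation -/
noncomputable def p (e : E) : ℝ :=
  pv Q (R.own (R.src e)) (R.own (R.tgt e)) (R.via e) (R.hon (R.src e)) (R.hon (R.tgt e)) (R.perm e)

lemma viol_eq (e : E) : R.viol e = R.p e := by
  unfold viol p pv ex
  rw [← Fintype.sum_prod_type']
  refine Fintype.sum_equiv (Equiv.arrowProdEquivProdArrow I (fun _ => S) (fun _ => S)).symm _ _ ?_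
  rintro ⟨a, a'⟩
  unfold ind jl
  simp only [Equiv.arrowProdEquivProdArrow_symm_apply]
  by_cases h : R.perm e (R.hon (R.src e) a) = R.hon (R.tgt e) a' <;> simp [h]

lemma p_nonneg (e : E) : 0 ≤ R.p e := pv_nonneg (R.adj' e) _ _ _

/-- influence -/
noncomputable def inf (w : W) (i : I) : ℝ := infl Q (R.own w) (R.hon w) i

/-- influence given a projection -/
noncomputable def cin (w : W) (i : I) (v : V) : ℝ := cinfl Q (R.own w) (R.hon w) i v

lemma inf_nonneg (w : W) (i : I) : 0 ≤ R.inf w i := infl_nonneg Q _ _ _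

def near (T : ℝ) (w : W) (i : I) (v : V) : Prop :=
  (Q i).nbr (R.own w i) v ∧ R.cin w i v < T * R.inf w i

lemma near_unique {κ : ℝ} (hκ : 0 < κ) {i : I} (hQ : (Q i).Spread A κ) {w : W} {v v' : V}
    (h : R.near (1 / (2 * κ)) w i v) (h' : R.near (1 / (2 * κ)) w i v') : v = v' := by
  by_contra hne
  have h1 := infl_le Q hQ (R.hon w) h.1 h'.1 hne
  have h2 := h.2
  have h3 := h'.2
  unfold cin inf at h2 h3
  have h4 : κ * (cinfl Q (R.own w) (R.hon w) i v + cinfl Q (R.own w) (R.hon w) i v') <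
      κ * (1 / (2 * κ) * infl Q (R.own w) (R.hon w) i + 1 / (2 * κ) * infl Q (R.own w) (R.hon w) i) :=
    mul_lt_mul_of_pos_left (by linarith) hκ
  have h5 : κ * (1 / (2 * κ) * infl Q (R.own w) (R.hon w) i +
      1 / (2 * κ) * infl Q (R.own w) (R.hon w) i) = infl Q (R.own w) (R.hon w) i := by
    field_simp
    ring
  linarith

noncomputable def vs (T : ℝ) (w : W) (i : I) : Option V :=
  if h : ∃ v, R.near T w i v then some h.choose else none

lemma vs_some {T : ℝ} {w : W} {i : I} {v : V} (h : R.vs T w i = some v) : R.near T w i v := by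
  unfold vs at h
  split_ifs at h with h1
  have := h1.choose_spec
  rw [Option.some.injEq] at h
  rw [h] at this
  exact this

lemma vs_of_near {κ : ℝ} (hκ : 0 < κ) {i : I} (hQ : (Q i).Spread A κ) {w : W} {v : V}
    (h : R.near (1 / (2 * κ)) w i v) : R.vs (1 / (2 * κ)) w i = some v := by
  unfold vs
  have h1 : ∃ v, R.near (1 / (2 * κ)) w i v := ⟨v, h⟩
  rw [dif_pos h1]
  congr 1
  exact R.near_unique hκ hQ h1.choose_spec h

noncomputable def rr (T : ℝ) (w : W) (i : I) : ℝ :=
  match R.vs T w i with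
  | some v => R.cin w i v / R.inf w i
  | none => T

lemma rr_some {T : ℝ} {w : W} {i : I} {v : V} (h : R.vs T w i = some v) :
    R.rr T w i = R.cin w i v / R.inf w i := by
  unfold rr; rw [h]

lemma rr_none {T : ℝ} {w : W} {i : I} (h : R.vs T w i = none) : R.rr T w i = T := by
  unfold rr; rw [h]

noncomputable def cat (T t : ℝ) (w : W) (i : I) : Option V := if R.rr T w i < t then R.vs T w i else none

lemma cin_nonneg {w : W} {i : I} {v : V} (h : (Q i).nbr (R.own w i) v) : 0 ≤ R.cin w i v :=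
  cinfl_nonneg Q _ h

lemma inf_lip (e : E) (i : I) : R.inf (R.tgt e) i ≤ R.inf (R.src e) i + 2 * R.p e :=
  infl_lip (R.adj' e) _ _ _ _

lemma inf_lip' (e : E) (i : I) : R.inf (R.src e) i ≤ R.inf (R.tgt e) i + 2 * R.p e :=
  infl_lip' (R.adj' e) _ _ _ _

lemma cin_lip {e : E} {i : I} (h : R.own (R.src e) i = R.own (R.tgt e) i) {v : V}
    (hv : (Q i).nbr (R.own (R.src e) i) v) :
    R.cin (R.tgt e) i v ≤ R.cin (R.src e) i v + 2 * R.p e :=
  cinfl_lip (R.adj' e) _ _ _ h hv

lemma cin_lip' {e : E} {i : I} (h : R.own (R.src e) i = R.own (R.tgt e) i) {v : V}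
    (hv : (Q i).nbr (R.own (R.src e) i) v) :
    R.cin (R.src e) i v ≤ R.cin (R.tgt e) i v + 2 * R.p e :=
  cinfl_lip' (R.adj' e) _ _ _ h hv

/-- the ratio of a vertex without the category of the other one is large -/
lemma rr_ge {κ : ℝ} (hκ : 0 < κ) {i : I} (hQ : (Q i).Spread A κ) {w w' : W}
    (ho : R.own w i = R.own w' i) (hne : R.vs (1 / (2 * κ)) w i ≠ R.vs (1 / (2 * κ)) w' i)
    {p m : ℝ} (hp : 0 ≤ p) (hm : 0 < m) (hmw : m ≤ R.inf w i)
    (hi : R.inf w i ≤ R.inf w' i + 2 * p)
    (hl : ∀ v, (Q i).nbr (R.own w i) v → R.cin w' i v ≤ R.cin w i v + 2 * p) :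
    1 / (2 * κ) - 2 * p * (1 + 1 / (2 * κ)) / m ≤ R.rr (1 / (2 * κ)) w i := by
  have hT : 0 < 1 / (2 * κ) := by positivity
  set T := 1 / (2 * κ) with hTdef
  cases h : R.vs T w i with
  | none =>
    rw [R.rr_none h]
    have : 0 ≤ 2 * p * (1 + T) / m := by positivity
    linarith
  | some v =>
    rw [R.rr_some h]
    have h1 := R.vs_some h
    have h2 : ¬ R.near T w' i v := by
      intro h3
      apply hne
      rw [h, R.vs_of_near hκ hQ h3]
    have h3 : ¬ (R.cin w' i v < T * R.inf w' i) := by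
      intro h4
      exact h2 ⟨ho ▸ h1.1, h4⟩
    push Not at h3
    have h4 := hl v h1.1
    have hI : 0 < R.inf w i := lt_of_lt_of_le hm hmw
    have h5 : T * R.inf w i - 2 * p * (1 + T) ≤ R.cin w i v := by
      have : T * R.inf w i ≤ T * (R.inf w' i + 2 * p) := mul_le_mul_of_nonneg_left hi hT.le
      nlinarith
    have h6 : T - 2 * p * (1 + T) / R.inf w i ≤ R.cin w i v / R.inf w i := by
      rw [le_div_iff₀ hI, sub_mul, div_mul_cancel₀ _ hI.ne']
      exact h5
    have h7 : 2 * p * (1 + T) / R.inf w i ≤ 2 * p * (1 + T) / m :=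
      div_le_div_of_nonneg_left (by positivity) hm hmw
    linarith

/-- the ratios for a common category are close -/
lemma rr_close {T p m J J' I₀ I' : ℝ} (hp : 0 ≤ p) (hm : 0 < m) (hI : m ≤ I₀)
    (hI' : m ≤ I') (hJ' : J' < T * I') (hii : I' ≤ I₀ + 2 * p) (hjj : J ≤ J' + 2 * p)
    (hJ0 : 0 ≤ J') :
    J / I₀ ≤ J' / I' + 2 * p * (1 + T) / m := by
  have h0 : 0 < I₀ := lt_of_lt_of_le hm hI
  have h0' : 0 < I' := lt_of_lt_of_le hm hI'
  have h1 : J / I₀ ≤ J' / I' + 2 * p * (1 + J' / I') / I₀ := by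
    have e : J' / I' + 2 * p * (1 + J' / I') / I₀ = (J' * I₀ + 2 * p * (I' + J')) / (I' * I₀) := by
      field_simp
    rw [e, div_le_div_iff₀ h0 (mul_pos h0' h0)]
    have h2 : J * I' ≤ J' * I₀ + 2 * p * (I' + J') := by
      have h3 : J * I' ≤ (J' + 2 * p) * I' := mul_le_mul_of_nonneg_right hjj h0'.le
      have h4 : J' * I' ≤ J' * (I₀ + 2 * p) := mul_le_mul_of_nonneg_left hii hJ0
      nlinarith
    calc J * (I' * I₀) = (J * I') * I₀ := by ring
      _ ≤ _ := mul_le_mul_of_nonneg_right h2 h0.le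
  have hr : J' / I' ≤ T := by
    rw [div_le_iff₀ h0']
    exact hJ'.le
  have hr0 : 0 ≤ J' / I' := div_nonneg hJ0 h0'.le
  have h2 : 2 * p * (1 + J' / I') / I₀ ≤ 2 * p * (1 + T) / m := by
    have h3 : 2 * p * (1 + J' / I') ≤ 2 * p * (1 + T) :=
      mul_le_mul_of_nonneg_left (by linarith) (by linarith)
    have h4 : 0 ≤ 2 * p * (1 + T) := by
      have : 0 ≤ 2 * p * (1 + J' / I') := by positivity
      linarith
    exact div_le_div₀ h4 h3 hm hI
  linarith

/-- the bad interval of thresholds -/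
lemma interval {κ : ℝ} (hκ : 0 < κ) (e : E) (i : I) (hQ : (Q i).Spread A κ) :
    ∃ lo len : ℝ, 0 ≤ len ∧ (R.inf (R.src e) i + R.inf (R.tgt e) i) * len ≤
      (4 + 6 * (1 / (2 * κ))) * R.p e ∧
      ∀ t, 0 < t → t < 1 / (2 * κ) → ¬ (lo ≤ t ∧ t ≤ lo + len) →
        R.cat (1 / (2 * κ)) t (R.src e) i = R.cat (1 / (2 * κ)) t (R.tgt e) i ∧
        (R.own (R.src e) i ≠ R.own (R.tgt e) i →
          R.cat (1 / (2 * κ)) t (R.src e) i = some (R.via e i)) := by
  have hT : 0 < 1 / (2 * κ) := by positivity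
  set T := 1 / (2 * κ) with hTdef
  have hp := R.p_nonneg e
  have l1 := R.inf_lip e i
  have l2 := R.inf_lip' e i
  have n1 := R.inf_nonneg (R.src e) i
  have n2 := R.inf_nonneg (R.tgt e) i
  set I₀ := R.inf (R.src e) i with hI0
  set I' := R.inf (R.tgt e) i with hI'
  set p := R.p e with hpdef
  obtain ⟨m, hm⟩ : ∃ m, m = min I₀ I' := ⟨_, rfl⟩
  have hm1 : m ≤ I₀ := hm ▸ min_le_left _ _
  have hm2 : m ≤ I' := hm ▸ min_le_right _ _
  have hm3 : I₀ + I' ≤ 2 * m + 2 * p := by
    rcases le_total I₀ I' with h | h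
    · rw [hm, min_eq_left h]; linarith
    · rw [hm, min_eq_right h]; linarith
  rcases le_or_gt m 0 with hm0 | hm0
  · refine ⟨0, T, hT.le, ?_, fun t h1 h2 h3 => absurd ⟨h1.le, by linarith⟩ h3⟩
    have : (I₀ + I') * T ≤ 2 * p * T := mul_le_mul_of_nonneg_right (by linarith) hT.le
    nlinarith
  obtain ⟨L, hL⟩ : ∃ L, L = 2 * p * (1 + T) / m := ⟨_, rfl⟩
  have hL0 : 0 ≤ L := by rw [hL]; positivity
  have hLm : m * L = 2 * p * (1 + T) := by rw [hL]; field_simp
  rcases le_or_gt T L with hTL | hTL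
  · refine ⟨0, T, hT.le, ?_, fun t h1 h2 h3 => absurd ⟨h1.le, by linarith⟩ h3⟩
    have h1 : (I₀ + I') * T ≤ (2 * m + 2 * p) * T := mul_le_mul_of_nonneg_right hm3 hT.le
    have h2 : m * T ≤ m * L := mul_le_mul_of_nonneg_left hTL hm0.le
    nlinarith
  have hcost : (I₀ + I') * L ≤ (4 + 6 * T) * p := by
    have h1 : (I₀ + I') * L ≤ (2 * m + 2 * p) * L := mul_le_mul_of_nonneg_right hm3 hL0
    have h2 : 2 * p * L ≤ 2 * p * T := mul_le_mul_of_nonneg_left hTL.le (by linarith)
    nlinarith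
  by_cases ho : R.own (R.src e) i = R.own (R.tgt e) i
  · by_cases hv : R.vs T (R.src e) i = R.vs T (R.tgt e) i
    · refine ⟨min (R.rr T (R.src e) i) (R.rr T (R.tgt e) i), L, hL0, hcost, ?_⟩
      intro t h1 h2 h3
      refine ⟨?_, fun h => absurd ho h⟩
      have c1 : R.rr T (R.src e) i ≤ R.rr T (R.tgt e) i + L := by
        cases h4 : R.vs T (R.src e) i with
        | none => rw [R.rr_none h4, R.rr_none (hv ▸ h4)]; linarith
        | some v =>
          have h5 : R.vs T (R.tgt e) i = some v := hv ▸ h4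
          rw [R.rr_some h4, R.rr_some h5, hL]
          have g1 := R.vs_some h4
          have g2 := R.vs_some h5
          exact rr_close hp hm0 hm1 hm2 g2.2 l1 (R.cin_lip' ho g1.1) (R.cin_nonneg g2.1)
      have c2 : R.rr T (R.tgt e) i ≤ R.rr T (R.src e) i + L := by
        cases h4 : R.vs T (R.src e) i with
        | none => rw [R.rr_none h4, R.rr_none (hv ▸ h4)]; linarith
        | some v =>
          have h5 : R.vs T (R.tgt e) i = some v := hv ▸ h4
          rw [R.rr_some h4, R.rr_some h5, hL]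
          have g1 := R.vs_some h4
          have g2 := R.vs_some h5
          exact rr_close hp hm0 hm2 hm1 g1.2 l2 (R.cin_lip ho g1.1) (R.cin_nonneg g1.1)
      unfold cat
      by_cases g1 : R.rr T (R.src e) i < t <;> by_cases g2 : R.rr T (R.tgt e) i < t
      · rw [if_pos g1, if_pos g2, hv]
      · exfalso
        apply h3
        push Not at g2
        refine ⟨(min_le_left _ _).trans g1.le, ?_⟩
        rw [min_def]
        split_ifs <;> linarith
      · exfalso
        apply h3
        push Not at g1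
        refine ⟨(min_le_right _ _).trans g2.le, ?_⟩
        rw [min_def]
        split_ifs <;> linarith
      · rw [if_neg g1, if_neg g2]
    · refine ⟨T - L, L, hL0, hcost, ?_⟩
      intro t h1 h2 h3
      refine ⟨?_, fun h => absurd ho h⟩
      have r1 := R.rr_ge hκ hQ ho hv hp hm0 hm1 l2 (fun v hv => R.cin_lip ho hv)
      have r2 := R.rr_ge hκ hQ ho.symm (Ne.symm hv) hp hm0 hm2 l1
        (fun v hv => R.cin_lip' ho (ho ▸ hv))
      rw [← hTdef, ← hL] at r1 r2
      have ht' : t < T - L := by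
        by_contra h5
        push Not at h5
        exact h3 ⟨h5, by linarith⟩
      unfold cat
      rw [if_neg (by linarith), if_neg (by linarith)]
  · refine ⟨0, L, hL0, hcost, ?_⟩
    intro t h1 h2 h3
    have ht' : L < t := by
      by_contra h5
      push Not at h5
      exact h3 ⟨h1.le, by linarith⟩
    obtain ⟨a1, a2⟩ := R.adj e i ho
    have d1 : R.cin (R.src e) i (R.via e i) ≤ 2 * p := cinfl_cross (R.adj' e) _ _ _ ho
    have d2 : R.cin (R.tgt e) i (R.via e i) ≤ 2 * p := cinfl_cross' (R.adj' e) _ _ _ ho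
    have hp2 : 2 * p ≤ L * m := by
      rw [mul_comm L m, hLm]
      nlinarith
    have q1 : 2 * p < t * I₀ := by
      have : L * m < t * m := mul_lt_mul_of_pos_right ht' hm0
      have : t * m ≤ t * I₀ := mul_le_mul_of_nonneg_left hm1 h1.le
      linarith
    have q2 : 2 * p < t * I' := by
      have : L * m < t * m := mul_lt_mul_of_pos_right ht' hm0
      have : t * m ≤ t * I' := mul_le_mul_of_nonneg_left hm2 h1.le
      linarith
    have i1 : 0 < I₀ := lt_of_lt_of_le hm0 hm1
    have i2 : 0 < I' := lt_of_lt_of_le hm0 hm2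
    have v1 : R.vs T (R.src e) i = some (R.via e i) := by
      refine R.vs_of_near hκ hQ ⟨a1, ?_⟩
      have : t * I₀ < T * I₀ := mul_lt_mul_of_pos_right h2 i1
      show R.cin (R.src e) i (R.via e i) < T * I₀
      linarith
    have v2 : R.vs T (R.tgt e) i = some (R.via e i) := by
      refine R.vs_of_near hκ hQ ⟨a2, ?_⟩
      have : t * I' < T * I' := mul_lt_mul_of_pos_right h2 i2
      show R.cin (R.tgt e) i (R.via e i) < T * I'
      linarith
    have r1 : R.rr T (R.src e) i < t := by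
      rw [R.rr_some v1, div_lt_iff₀ i1]
      linarith
    have r2 : R.rr T (R.tgt e) i < t := by
      rw [R.rr_some v2, div_lt_iff₀ i2]
      linarith
    unfold cat
    rw [if_pos r1, if_pos r2, v1, v2]
    exact ⟨rfl, fun _ => rfl⟩

/-- the matched coordinates -/
def Matched (T t : ℝ) (e : E) (i : I) : Prop :=
  R.cat T t (R.src e) i = R.cat T t (R.tgt e) i ∧
    (R.own (R.src e) i ≠ R.own (R.tgt e) i → R.cat T t (R.src e) i = some (R.via e i))

/-- a good threshold -/
lemma exists_good [Fintype E] {κ : ℝ} (hκ : 0 < κ) (hQ : ∀ i, (Q i).Spread A κ) :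
    ∃ t : ℝ, ∑ e, ∑ i, (R.inf (R.src e) i + R.inf (R.tgt e) i) *
      ind (¬ R.Matched (1 / (2 * κ)) t e i) ≤ (8 * κ + 6) * Fintype.card I * ∑ e, R.p e := by
  have hT : 0 < 1 / (2 * κ) := by positivity
  choose lo len h1 h2 h3 using fun (x : E × I) => R.interval hκ x.1 x.2 (hQ x.2)
  obtain ⟨t, t1, t2, t3⟩ := exists_threshold lo len
    (fun x : E × I => R.inf (R.src x.1) x.2 + R.inf (R.tgt x.1) x.2) h1
    (fun x => add_nonneg (R.inf_nonneg _ _) (R.inf_nonneg _ _)) hT
  refine ⟨t, ?_⟩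
  have h4 : ∑ x : E × I, (R.inf (R.src x.1) x.2 + R.inf (R.tgt x.1) x.2) * len x ≤
      ∑ x : E × I, (4 + 6 * (1 / (2 * κ))) * R.p x.1 := Finset.sum_le_sum fun x _ => h2 x
  have h5 : ∑ x : E × I, (4 + 6 * (1 / (2 * κ))) * R.p x.1 =
      (4 + 6 * (1 / (2 * κ))) * (Fintype.card I * ∑ e, R.p e) := by
    rw [← Finset.mul_sum, Fintype.sum_prod_type]
    simp only [Finset.sum_const, Finset.card_univ, nsmul_eq_mul]
    rw [← Finset.mul_sum]
  have h6 : ∑ e, ∑ i, (R.inf (R.src e) i + R.inf (R.tgt e) i) *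
      ind (¬ R.Matched (1 / (2 * κ)) t e i) ≤
      ∑ x : E × I, (R.inf (R.src x.1) x.2 + R.inf (R.tgt x.1) x.2) *
        ind (lo x ≤ t ∧ t ≤ lo x + len x) := by
    rw [Fintype.sum_prod_type]
    refine Finset.sum_le_sum fun e _ => Finset.sum_le_sum fun i _ => ?_
    refine mul_le_mul_of_nonneg_left ?_ (add_nonneg (R.inf_nonneg _ _) (R.inf_nonneg _ _))
    unfold ind
    by_cases h7 : lo (e, i) ≤ t ∧ t ≤ lo (e, i) + len (e, i)
    · rw [if_pos h7]; split_ifs <;> norm_num
    · have h8 : R.Matched (1 / (2 * κ)) t e i := h3 (e, i) t t1 t2 h7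
      rw [if_neg h7, if_neg (not_not.2 h8)]
  rw [sub_zero] at t3
  set X := ∑ x : E × I, (R.inf (R.src x.1) x.2 + R.inf (R.tgt x.1) x.2) *
        ind (lo x ≤ t ∧ t ≤ lo x + len x) with hX
  set P := ∑ e, R.p e with hP
  have h7 : X * (1 / (2 * κ)) ≤ (4 + 6 * (1 / (2 * κ))) * (Fintype.card I * P) := by linarith
  have h8 : X ≤ (8 * κ + 6) * Fintype.card I * P := by
    have e1 : X = (2 * κ) * (X * (1 / (2 * κ))) := by field_simp
    have e2 : (8 * κ + 6) * Fintype.card I * P =
        (2 * κ) * ((4 + 6 * (1 / (2 * κ))) * (Fintype.card I * P)) := by field_simp; ring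
    rw [e1, e2]
    exact mul_le_mul_of_nonneg_left h7 (by positivity)
  linarith

end Composed

end Run7.h881.CK
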