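import Mathlib
import Pool.Agent.Run7.h881.CK.Cat

set_option autoImplicit false
set_option linter.unusedSectionVars false

namespace Run7.h881.CK

open Finset
open scoped Classical

/-- the law of two coordinates -/
lemma ex_coord2 {I Z : Type} [Fintype I] [Fintype Z] {ρ : I → Z → ℝ} (hρ : ∀ i, ∑ z, ρ i z = 1)
    {k l : I} (hkl : k ≠ l) (s s' : Z) :
    ∑ a : I → Z, (if a k = s ∧ a l = s' then ∏ i, ρ i (a i) else 0) = ρ k s * ρ l s' := by
  have h1 : ∀ a : I → Z, (if a k = s ∧ a l = s' then ∏ i, ρ i (a i) else 0) =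
      ∏ x, (ρ x (a x) * ((if x = k then (if a x = s then 1 else 0) else 1) *
        (if x = l then (if a x = s' then 1 else 0) else 1))) := by
    intro a
    rw [Finset.prod_mul_distrib, Finset.prod_mul_distrib]
    rw [Finset.prod_ite_eq' Finset.univ k (fun l => if a l = s then (1 : ℝ) else 0),
      Finset.prod_ite_eq' Finset.univ l (fun l => if a l = s' then (1 : ℝ) else 0)]
    by_cases h2 : a k = s <;> by_cases h3 : a l = s' <;> simp [h2, h3]
  rw [Finset.sum_congr rfl fun a _ => h1 a]
  rw [Run7.h881.CB.sum_pi_prod (fun x t => ρ x t * ((if x = k then (if t = s then (1 : ℝ) else 0) else 1) *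
        (if x = l then (if t = s' then 1 else 0) else 1)))]
  rw [← Finset.mul_prod_erase Finset.univ _ (Finset.mem_univ k),
    ← Finset.mul_prod_erase (Finset.univ.erase k) _
      (Finset.mem_erase.2 ⟨hkl.symm, Finset.mem_univ l⟩)]
  have h4 : ∏ x ∈ (Finset.univ.erase k).erase l, ∑ t, (ρ x t *
      ((if x = k then (if t = s then (1 : ℝ) else 0) else 1) *
        (if x = l then (if t = s' then 1 else 0) else 1))) = 1 := by
    refine Finset.prod_eq_one fun x hx => ?_
    rw [Finset.mem_erase, Finset.mem_erase] at hx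
    simp [hx.1, hx.2.1, hρ]
  rw [h4]
  simp [hkl, hkl.symm]

/-- the law of one coordinate -/
lemma ex_coord1 {I Z : Type} [Fintype I] [Fintype Z] {ρ : I → Z → ℝ} (hρ : ∀ i, ∑ z, ρ i z = 1)
    (k : I) (P : Z → Prop) :
    ∑ a : I → Z, (if P (a k) then ∏ i, ρ i (a i) else 0) = ∑ z, if P z then ρ k z else 0 := by
  have h1 : ∀ a : I → Z, (if P (a k) then ∏ i, ρ i (a i) else 0) =
      ∏ x, (ρ x (a x) * (if x = k then (if P (a x) then 1 else 0) else 1)) := by
    intro a
    rw [Finset.prod_mul_distrib]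
    rw [Finset.prod_ite_eq' Finset.univ k (fun l => if P (a l) then (1 : ℝ) else 0)]
    by_cases h2 : P (a k) <;> simp [h2]
  rw [Finset.sum_congr rfl fun a _ => h1 a]
  rw [Run7.h881.CB.sum_pi_prod (fun x t => ρ x t * (if x = k then (if P t then (1 : ℝ) else 0) else 1))]
  rw [Finset.prod_eq_single k]
  · refine Finset.sum_congr rfl fun z _ => ?_
    by_cases h : P z <;> simp [h]
  · intro l _ hl
    simp [hl, hρ]
  · simp

lemma exists_le_ex {I Z : Type} [Fintype I] [Fintype Z] {ρ : I → Z → ℝ} (h0 : ∀ i z, 0 ≤ ρ i z)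
    (hρ : ∀ i, ∑ z, ρ i z = 1) (f : (I → Z) → ℝ) : ∃ z, f z ≤ ex ρ f := by
  by_contra hcon
  push Not at hcon
  have hP : ∑ a : I → Z, ∏ k, ρ k (a k) = 1 := by
    rw [Run7.h881.CB.sum_pi_prod]
    exact Finset.prod_eq_one fun k _ => hρ k
  have hnn : ∀ a : I → Z, 0 ≤ ∏ k, ρ k (a k) := fun a => Finset.prod_nonneg fun k _ => h0 k _
  have h1 : ∑ a : I → Z, (∏ k, ρ k (a k)) * ex ρ f < ∑ a : I → Z, (∏ k, ρ k (a k)) * f a := by
    refine Finset.sum_lt_sum (fun a _ => mul_le_mul_of_nonneg_left (hcon a).le (hnn a)) ?_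
    by_contra h2
    push Not at h2
    have h3 : ∀ a : I → Z, ∏ k, ρ k (a k) = 0 := by
      intro a
      by_contra h4
      have h5 : 0 < ∏ k, ρ k (a k) := lt_of_le_of_ne (hnn a) (Ne.symm h4)
      have h6 := h2 a (Finset.mem_univ a)
      have h7 := mul_lt_mul_of_pos_left (hcon a) h5
      linarith
    rw [Finset.sum_congr rfl fun a _ => h3 a] at hP
    simp at hP
  rw [← Finset.sum_mul, hP, one_mul] at h1
  exact lt_irrefl _ h1

variable {U V S G : Type} [Fintype S] [DecidableEq G] [Fintype G] [Fintype U]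

namespace Source

variable (Q : Source U V S G)

/-- the conditional distribution of the label of `u` given its projection `g` to `v` -/
noncomputable def cd (v : V) (g : G) (u : U) (s : S) : ℝ :=
  if Q.nbr u v then (if Q.proj u v s = g then Q.mu u s / Q.lam v g else 0) else Q.mu u s

lemma cd_nonneg (v : V) (g : G) (u : U) (s : S) : 0 ≤ Q.cd v g u s := by
  unfold cd
  split_ifs with h1 h2
  · exact div_nonneg (Q.mu_nonneg _ _) (Q.lam_nonneg h1 g)
  · exact le_rfl
  · exact Q.mu_nonneg _ _

lemma cd_sum {v : V} {g : G} (hg : Q.lam v g ≠ 0) (u : U) : ∑ s, Q.cd v g u s = 1 := by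
  unfold cd
  by_cases h1 : Q.nbr u v
  · simp only [if_pos h1]
    rw [← Finset.sum_filter, ← Finset.sum_div, Q.marginal u v h1 g, div_self hg]
  · simp only [if_neg h1]
    exact Q.mu_sum u

lemma lam_sum {u : U} {v : V} (h : Q.nbr u v) : ∑ g, Q.lam v g = 1 := by
  rw [← Q.mu_sum u, ← Finset.sum_fiberwise (s := Finset.univ) (g := Q.proj u v)]
  exact Finset.sum_congr rfl fun g _ => (Q.marginal u v h g).symm

lemma lam_cd {u0 : U} {v : V} (h : Q.nbr u0 v) (u : U) (s : S) :
    ∑ g, Q.lam v g * Q.cd v g u s = Q.mu u s := by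
  unfold cd
  by_cases h1 : Q.nbr u v
  · simp only [if_pos h1]
    rw [Finset.sum_eq_single (Q.proj u v s)]
    · rw [if_pos rfl]
      by_cases h3 : Q.lam v (Q.proj u v s) = 0
      · rw [h3, Q.mu_eq_zero h1 h3]; simp
      · field_simp
    · intro g _ hg
      rw [if_neg (Ne.symm hg), mul_zero]
    · simp
  · simp only [if_neg h1]
    rw [← Finset.sum_mul, Q.lam_sum h, one_mul]

lemma lam_cd_cd {u u' : U} {v : V} (hu : u ≠ u') (h : Q.nbr u v) (h' : Q.nbr u' v) (s s' : S) :
    ∑ g, Q.lam v g * (Q.cd v g u s * Q.cd v g u' s') = Q.joint u u' v s s' := by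
  unfold cd joint
  simp only [if_pos h, if_pos h', if_neg hu]
  rw [Finset.sum_eq_single (Q.proj u v s)]
  · rw [if_pos rfl]
    by_cases h3 : Q.proj u v s = Q.proj u' v s'
    · rw [if_pos h3, if_pos h3.symm]
      by_cases h4 : Q.lam v (Q.proj u v s) = 0
      · rw [h4]; simp
      · field_simp
    · rw [if_neg h3, if_neg (Ne.symm h3)]; simp
  · intro g _ hg
    rw [if_neg (Ne.symm hg)]; simp
  · simp

/-- random labels of all left vertices, one law for each category -/
noncomputable def samp (k : Option V) (b : U → S) : ℝ :=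
  match k with
  | some v => if ∃ u, Q.nbr u v then ∑ g, Q.lam v g * ∏ u, Q.cd v g u (b u) else ∏ u, Q.mu u (b u)
  | none => ∏ u, Q.mu u (b u)

lemma samp_nonneg (k : Option V) (b : U → S) : 0 ≤ Q.samp k b := by
  cases k with
  | none => exact Finset.prod_nonneg fun u _ => Q.mu_nonneg u _
  | some v =>
    show 0 ≤ if ∃ u, Q.nbr u v then ∑ g, Q.lam v g * ∏ u, Q.cd v g u (b u) else ∏ u, Q.mu u (b u)
    split_ifs with h
    · obtain ⟨u, hu⟩ := h
      exact Finset.sum_nonneg fun g _ => mul_nonneg (Q.lam_nonneg hu g)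
        (Finset.prod_nonneg fun u _ => Q.cd_nonneg _ _ _ _)
    · exact Finset.prod_nonneg fun u _ => Q.mu_nonneg u _

lemma samp_one (k : Option V) (u : U) (P : S → Prop) :
    ∑ b : U → S, (if P (b u) then Q.samp k b else 0) = ∑ s, if P s then Q.mu u s else 0 := by
  cases k with
  | none => exact ex_coord1 Q.mu_sum u P
  | some v =>
    by_cases h : ∃ u, Q.nbr u v
    · have e : ∀ b : U → S, (if P (b u) then Q.samp (some v) b else 0) =
          ∑ g, Q.lam v g * (if P (b u) then ∏ u, Q.cd v g u (b u) else 0) := by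
        intro b
        show (if P (b u) then (if ∃ u, Q.nbr u v then ∑ g, Q.lam v g * ∏ u, Q.cd v g u (b u)
          else ∏ u, Q.mu u (b u)) else 0) = _
        rw [if_pos h]
        by_cases h1 : P (b u) <;> simp [h1]
      obtain ⟨u0, hu0⟩ := h
      simp_rw [e]
      rw [Finset.sum_comm]
      have e2 : ∀ g, ∑ b : U → S, Q.lam v g * (if P (b u) then ∏ u, Q.cd v g u (b u) else 0) =
          ∑ s, if P s then Q.lam v g * Q.cd v g u s else 0 := by
        intro g
        rw [← Finset.mul_sum]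
        by_cases hg : Q.lam v g = 0
        · rw [hg]; simp
        · rw [ex_coord1 (fun u => Q.cd_sum hg u) u P, Finset.mul_sum]
          refine Finset.sum_congr rfl fun s _ => ?_
          by_cases h1 : P s <;> simp [h1]
      simp_rw [e2]
      rw [Finset.sum_comm]
      refine Finset.sum_congr rfl fun s _ => ?_
      by_cases h1 : P s
      · simp only [if_pos h1]
        exact Q.lam_cd hu0 u s
      · simp [h1]
    · have e : ∀ b : U → S, (if P (b u) then Q.samp (some v) b else 0) =
          (if P (b u) then ∏ u, Q.mu u (b u) else 0) := by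
        intro b
        show (if P (b u) then (if ∃ u, Q.nbr u v then ∑ g, Q.lam v g * ∏ u, Q.cd v g u (b u)
          else ∏ u, Q.mu u (b u)) else 0) = _
        rw [if_neg h]
      simp_rw [e]
      exact ex_coord1 Q.mu_sum u P

lemma samp_sum (k : Option V) : ∑ b : U → S, Q.samp k b = 1 := by
  rcases isEmpty_or_nonempty U with hU | ⟨⟨u⟩⟩
  · cases k with
    | none => simp [samp]
    | some v =>
      have h : ¬ ∃ u, Q.nbr u v := fun ⟨u, _⟩ => hU.false u
      simp [samp]
  · have h1 := Q.samp_one k u (fun _ => True)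
    simp only [if_true] at h1
    rw [h1, Q.mu_sum]

lemma samp_two {v : V} {u u' : U} (hu : u ≠ u') (h : Q.nbr u v) (h' : Q.nbr u' v) (s s' : S) :
    ∑ b : U → S, (if b u = s ∧ b u' = s' then Q.samp (some v) b else 0) = Q.joint u u' v s s' := by
  have e : ∀ b : U → S, (if b u = s ∧ b u' = s' then Q.samp (some v) b else 0) =
      ∑ g, Q.lam v g * (if b u = s ∧ b u' = s' then ∏ u, Q.cd v g u (b u) else 0) := by
    intro b
    show (if b u = s ∧ b u' = s' then (if ∃ u, Q.nbr u v then ∑ g, Q.lam v g * ∏ u, Q.cd v g u (b u)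
      else ∏ u, Q.mu u (b u)) else 0) = _
    rw [if_pos (⟨u, h⟩ : ∃ u, Q.nbr u v)]
    by_cases h1 : b u = s ∧ b u' = s'
    · simp only [if_pos h1]
    · simp only [if_neg h1]; simp
  simp_rw [e]
  rw [Finset.sum_comm, ← Q.lam_cd_cd hu h h']
  refine Finset.sum_congr rfl fun g _ => ?_
  rw [← Finset.mul_sum]
  by_cases hg : Q.lam v g = 0
  · rw [hg]; simp
  · rw [ex_coord2 (fun u => Q.cd_sum hg u) hu]

end Source

variable [Fintype V]
variable {I : Type} [Fintype I] {Q : I → Source U V S G}
variable {W E A : Type} (R : Composed Q W E A)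

namespace Composed

/-- the law of the samples of one coordinate -/
noncomputable def law (Q : I → Source U V S G) (i : I) (β : Option V → (U → S)) : ℝ :=
  ∏ k, (Q i).samp k (β k)

lemma law_nonneg (i : I) (β : Option V → (U → S)) : 0 ≤ law Q i β :=
  Finset.prod_nonneg fun k _ => (Q i).samp_nonneg k _

lemma law_sum (i : I) : ∑ β : Option V → (U → S), law Q i β = 1 := by
  have h := Run7.h881.CB.sum_pi_prod (fun (k : Option V) (b : U → S) => (Q i).samp k b)
  rw [Finset.prod_eq_one fun k _ => (Q i).samp_sum k] at h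
  unfold law
  refine Eq.trans (Finset.sum_congr (Finset.ext fun x => ?_) fun _ _ => rfl) h
  simp only [Finset.mem_univ]

lemma law_one (i : I) (k : Option V) (P : (U → S) → Prop) :
    ∑ β : Option V → (U → S), (if P (β k) then law Q i β else 0) =
      ∑ b : U → S, if P b then (Q i).samp k b else 0 := by
  have h := ex_coord1 (fun k => (Q i).samp_sum k) k P
  unfold law
  refine Eq.trans (Finset.sum_congr (Finset.ext fun x => ?_) fun _ _ => rfl) h
  simp only [Finset.mem_univ]

/-- the labels of the two tables of an edge -/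
noncomputable def lab (T t : ℝ) (e : E) (i : I) (β : Option V → (U → S)) : S × S :=
  (β (R.cat T t (R.src e) i) (R.own (R.src e) i), β (R.cat T t (R.tgt e) i) (R.own (R.tgt e) i))

/-- their law -/
noncomputable def plaw (T t : ℝ) (e : E) (i : I) (z : S × S) : ℝ :=
  ∑ β : Option V → (U → S), if R.lab T t e i β = z then law Q i β else 0

lemma plaw_marg (T t : ℝ) (e : E) :
    Marg Q (R.own (R.src e)) (R.own (R.tgt e)) (R.plaw T t e) := by
  refine ⟨fun i z => ?_, fun i a => ?_, fun i a => ?_⟩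
  · unfold plaw
    refine Finset.sum_nonneg fun β _ => ?_
    split_ifs
    · exact law_nonneg i β
    · exact le_rfl
  · unfold plaw
    have h1 := law_one (Q := Q) i (R.cat T t (R.src e) i) (fun b => b (R.own (R.src e) i) = a)
    rw [(Q i).samp_one (R.cat T t (R.src e) i) (R.own (R.src e) i) (fun s => s = a)] at h1
    have h2 : ∑ s, (if s = a then (Q i).mu (R.own (R.src e) i) s else 0) =
        (Q i).mu (R.own (R.src e) i) a := by simp
    rw [h2] at h1
    rw [← h1]
    have e1 : ∀ z : S × S, (if z.1 = a then ∑ β : Option V → (U → S),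
        (if R.lab T t e i β = z then law Q i β else 0) else 0) =
        ∑ β : Option V → (U → S), (if z.1 = a ∧ R.lab T t e i β = z then law Q i β else 0) := by
      intro z
      by_cases hz : z.1 = a
      · rw [if_pos hz]
        refine Finset.sum_congr rfl fun β _ => ?_
        by_cases h3 : R.lab T t e i β = z
        · rw [if_pos h3, if_pos ⟨hz, h3⟩]
        · rw [if_neg h3, if_neg (fun h => h3 h.2)]
      · rw [if_neg hz, Finset.sum_eq_zero]
        intro β _
        rw [if_neg (fun h => hz h.1)]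
    simp_rw [e1]
    rw [Finset.sum_comm]
    refine Finset.sum_congr rfl fun β _ => ?_
    rw [Finset.sum_eq_single (R.lab T t e i β)]
    · by_cases h3 : β (R.cat T t (R.src e) i) (R.own (R.src e) i) = a
      · rw [if_pos h3, if_pos ⟨h3, rfl⟩]
      · rw [if_neg h3, if_neg (fun h => h3 h.1)]
    · intro z _ hz
      rw [if_neg (fun h => hz h.2.symm)]
    · simp
  · unfold plaw
    have h1 := law_one (Q := Q) i (R.cat T t (R.tgt e) i) (fun b => b (R.own (R.tgt e) i) = a)
    rw [(Q i).samp_one (R.cat T t (R.tgt e) i) (R.own (R.tgt e) i) (fun s => s = a)] at h1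
    have h2 : ∑ s, (if s = a then (Q i).mu (R.own (R.tgt e) i) s else 0) =
        (Q i).mu (R.own (R.tgt e) i) a := by simp
    rw [h2] at h1
    rw [← h1]
    have e1 : ∀ z : S × S, (if z.2 = a then ∑ β : Option V → (U → S),
        (if R.lab T t e i β = z then law Q i β else 0) else 0) =
        ∑ β : Option V → (U → S), (if z.2 = a ∧ R.lab T t e i β = z then law Q i β else 0) := by
      intro z
      by_cases hz : z.2 = a
      · rw [if_pos hz]
        refine Finset.sum_congr rfl fun β _ => ?_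
        by_cases h3 : R.lab T t e i β = z
        · rw [if_pos h3, if_pos ⟨hz, h3⟩]
        · rw [if_neg h3, if_neg (fun h => h3 h.2)]
      · rw [if_neg hz, Finset.sum_eq_zero]
        intro β _
        rw [if_neg (fun h => hz h.1)]
    simp_rw [e1]
    rw [Finset.sum_comm]
    refine Finset.sum_congr rfl fun β _ => ?_
    rw [Finset.sum_eq_single (R.lab T t e i β)]
    · by_cases h3 : β (R.cat T t (R.tgt e) i) (R.own (R.tgt e) i) = a
      · rw [if_pos h3, if_pos ⟨h3, rfl⟩]
      · rw [if_neg h3, if_neg (fun h => h3 h.1)]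
    · intro z _ hz
      rw [if_neg (fun h => hz h.2.symm)]
    · simp

lemma plaw_matched {T t : ℝ} {e : E} {i : I} (h : R.Matched T t e i) :
    R.plaw T t e i = jl Q (R.own (R.src e)) (R.own (R.tgt e)) (R.via e) i := by
  funext z
  obtain ⟨h1, h2⟩ := h
  unfold plaw jl
  obtain ⟨P, hP⟩ : ∃ P : (U → S) → Prop, ∀ b, P b ↔
      (b (R.own (R.src e) i) = z.1 ∧ b (R.own (R.tgt e) i) = z.2) := ⟨_, fun _ => Iff.rfl⟩
  have e1 : ∀ β : Option V → (U → S), (if R.lab T t e i β = z then law Q i β else 0) =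
      (if P (β (R.cat T t (R.src e) i)) then law Q i β else 0) := by
    intro β
    unfold lab
    rw [← h1]
    by_cases h3 : P (β (R.cat T t (R.src e) i))
    · have h4 := (hP _).1 h3
      rw [if_pos h3, if_pos (Prod.ext h4.1 h4.2)]
    · rw [if_neg h3, if_neg]
      intro h4
      exact h3 ((hP _).2 ⟨by rw [← h4], by rw [← h4]⟩)
  refine (Finset.sum_congr rfl fun β _ => e1 β).trans ((law_one i (R.cat T t (R.src e) i) P).trans ?_)
  by_cases ho : R.own (R.src e) i = R.own (R.tgt e) i
  · unfold Source.joint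
    rw [if_pos ho]
    obtain ⟨P', hP'⟩ : ∃ P' : S → Prop, ∀ s, P' s ↔ (s = z.1 ∧ s = z.2) := ⟨_, fun _ => Iff.rfl⟩
    have e2 : ∀ b : U → S, (if P b then (Q i).samp (R.cat T t (R.src e) i) b else 0) =
        (if P' (b (R.own (R.src e) i)) then (Q i).samp (R.cat T t (R.src e) i) b else 0) := by
      intro b
      have h5 : P b ↔ P' (b (R.own (R.src e) i)) := by rw [hP, hP', ← ho]
      by_cases h6 : P b
      · rw [if_pos h6, if_pos (h5.1 h6)]
      · rw [if_neg h6, if_neg (fun h => h6 (h5.2 h))]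
    refine (Finset.sum_congr rfl fun b _ => e2 b).trans (((Q i).samp_one _ _ P').trans ?_)
    by_cases hz : z.1 = z.2
    · rw [if_pos hz, Finset.sum_eq_single z.1]
      · rw [if_pos ((hP' _).2 ⟨rfl, hz⟩)]
      · intro s _ hs
        rw [if_neg (fun h => hs ((hP' _).1 h).1)]
      · simp
    · rw [if_neg hz]
      refine Finset.sum_eq_zero fun s _ => ?_
      rw [if_neg (fun h => hz (((hP' _).1 h).1.symm.trans ((hP' _).1 h).2))]
  · rw [h2 ho]
    obtain ⟨a1, a2⟩ := R.adj e i ho
    rw [← (Q i).samp_two ho a1 a2 z.1 z.2]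
    refine Finset.sum_congr rfl fun b _ => ?_
    by_cases h6 : P b
    · rw [if_pos h6, if_pos ((hP _).1 h6)]
    · rw [if_neg h6, if_neg (fun h => h6 ((hP _).2 h))]

/-- **Main theorem.** -/
theorem main [Fintype E] {κ : ℝ} (hκ : 0 < κ) (hQ : ∀ i, (Q i).Spread A κ) :
    ∃ F : W → A, ∑ e, ind (R.perm e (F (R.src e)) ≠ F (R.tgt e)) ≤
      (1 + (8 * κ + 6) * Fintype.card I) * ∑ e, R.viol e := by
  obtain ⟨t, ht⟩ := R.exists_good hκ hQ
  obtain ⟨T, hT⟩ : ∃ T, T = 1 / (2 * κ) := ⟨_, rfl⟩
  rw [← hT] at ht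
  let Fo : (I → Option V → (U → S)) → W → A := fun ω w =>
    R.hon w (fun i => ω i (R.cat T t w i) (R.own w i))
  obtain ⟨ω, hω⟩ := exists_le_ex (ρ := fun i => law Q i) (fun i β => law_nonneg i β)
    (fun i => law_sum i) (fun ω => ∑ e, ind (R.perm e (Fo ω (R.src e)) ≠ Fo ω (R.tgt e)))
  refine ⟨Fo ω, hω.trans ?_⟩
  have h1 : ex (fun i => law Q i) (fun ω => ∑ e, ind (R.perm e (Fo ω (R.src e)) ≠ Fo ω (R.tgt e))) =
      ∑ e, ex (fun i => law Q i) (fun ω => ind (R.perm e (Fo ω (R.src e)) ≠ Fo ω (R.tgt e))) := by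
    unfold ex
    rw [Finset.sum_comm]
    refine Finset.sum_congr rfl fun ω _ => ?_
    rw [Finset.mul_sum]
  rw [h1]
  have h2 : ∀ e, ex (fun i => law Q i) (fun ω => ind (R.perm e (Fo ω (R.src e)) ≠ Fo ω (R.tgt e))) ≤
      R.p e + ∑ i, (R.inf (R.src e) i + R.inf (R.tgt e) i) * ind (¬ R.Matched T t e i) := by
    intro e
    have h3 := ex_push (fun i => law Q i) (fun i β => R.lab T t e i β)
      (fun z : I → S × S => ind (R.perm e (R.hon (R.src e) fun i => (z i).1) ≠
        R.hon (R.tgt e) fun i => (z i).2))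
    have h4 : ex (fun i => law Q i) (fun ω => ind (R.perm e (Fo ω (R.src e)) ≠ Fo ω (R.tgt e))) =
        ex (R.plaw T t e) (fun z : I → S × S => ind (R.perm e (R.hon (R.src e) fun i => (z i).1) ≠
        R.hon (R.tgt e) fun i => (z i).2)) := by
      refine Eq.trans ?_ (h3.trans ?_)
      · rfl
      · congr 1
        funext i z
        unfold plaw
        refine Finset.sum_congr rfl fun β _ => ?_
        congr
    rw [h4]
    have h5 := hybrid (marg_jl (R.adj' e)) (R.plaw_marg T t e) (R.hon (R.src e)) (R.hon (R.tgt e))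
      (R.perm e) (Finset.univ.filter fun i => ¬ R.Matched T t e i) (fun i hi => by
        rw [Finset.mem_filter] at hi
        push Not at hi
        exact R.plaw_matched (hi (Finset.mem_univ i)))
    refine h5.trans (le_of_eq ?_)
    congr 1
    rw [Finset.sum_filter]
    refine Finset.sum_congr rfl fun i _ => ?_
    unfold ind inf
    by_cases h6 : R.Matched T t e i
    · rw [if_neg (not_not.2 h6), if_neg (not_not.2 h6), mul_zero]
    · rw [if_pos h6, if_pos h6, mul_one]
  calc ∑ e, ex (fun i => law Q i) (fun ω => ind (R.perm e (Fo ω (R.src e)) ≠ Fo ω (R.tgt e)))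
      ≤ ∑ e, (R.p e + ∑ i, (R.inf (R.src e) i + R.inf (R.tgt e) i) *
          ind (¬ R.Matched T t e i)) := Finset.sum_le_sum fun e _ => h2 e
    _ = ∑ e, R.p e + ∑ e, ∑ i, (R.inf (R.src e) i + R.inf (R.tgt e) i) *
          ind (¬ R.Matched T t e i) := Finset.sum_add_distrib
    _ ≤ ∑ e, R.p e + (8 * κ + 6) * Fintype.card I * ∑ e, R.p e := by linarith
    _ = (1 + (8 * κ + 6) * Fintype.card I) * ∑ e, R.viol e := by
        rw [Finset.sum_congr rfl fun e _ => R.viol_eq e]
        ring

end Composed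

end Run7.h881.CK
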