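import Mathlib
import Pool.Agent.Run7.h881.CK.Fin

set_option autoImplicit false
set_option linter.unusedSectionVars false

namespace Run7.h881.CK

open Finset
open scoped Classical

variable {U V S G : Type} [Fintype S] [DecidableEq G]

lemma Source.diff_eq (Q : Source U V S G) {A : Type} (u : U) (h : S → A) :
    Q.diff u h = ∑ a, ∑ c, Q.mu u a * Q.mu u c * ind (h a ≠ h c) := by
  unfold Source.diff ind
  refine Finset.sum_congr rfl fun a _ => Finset.sum_congr rfl fun c _ => ?_
  by_cases h1 : h a = h c <;> simp [h1]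

lemma Source.diffAt_eq (Q : Source U V S G) {A : Type} (u : U) (v : V) (h : S → A) :
    Q.diffAt u v h = ∑ a, ∑ c, Q.mu u a * Q.cond u v a c * ind (h a ≠ h c) := by
  unfold Source.diffAt ind
  refine Finset.sum_congr rfl fun a _ => Finset.sum_congr rfl fun c _ => ?_
  by_cases h1 : h a = h c <;> simp [h1]

lemma Source.Indep.spread {Q : Source U V S G} (hQ : Q.Indep) (A : Type) : Q.Spread A 1 := by
  intro u v v' h1 h2 hne h
  rw [one_mul, Q.diff_eq, Q.diffAt_eq, Q.diffAt_eq]
  let τ : S → S → S → ℝ := fun a c b =>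
    if Q.proj u v b = Q.proj u v a ∧ Q.proj u v' b = Q.proj u v' c then
      Q.mu u b / (Q.lam v (Q.proj u v a) * Q.lam v' (Q.proj u v' c)) else 0
  have hτ0 : ∀ a c b, 0 ≤ τ a c b := by
    intro a c b
    simp only [τ]
    split_ifs
    · exact div_nonneg (Q.mu_nonneg _ _) (mul_nonneg (Q.lam_nonneg h1 _) (Q.lam_nonneg h2 _))
    · exact le_rfl
  have hτ1 : ∀ a c, Q.mu u a * Q.mu u c * ∑ b, τ a c b = Q.mu u a * Q.mu u c := by
    intro a c
    by_cases ha : Q.lam v (Q.proj u v a) = 0
    · rw [Q.mu_eq_zero h1 ha]; simp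
    by_cases hc : Q.lam v' (Q.proj u v' c) = 0
    · rw [Q.mu_eq_zero h2 hc]; simp
    have h3 : ∑ b, τ a c b = 1 := by
      simp only [τ]
      rw [← Finset.sum_filter, ← Finset.sum_div]
      have h4 := hQ u v v' h1 h2 hne (Q.proj u v a) (Q.proj u v' c)
      have h5 : ∑ b with Q.proj u v b = Q.proj u v a ∧ Q.proj u v' b = Q.proj u v' c, Q.mu u b =
          Q.lam v (Q.proj u v a) * Q.lam v' (Q.proj u v' c) := by
        rw [← h4]
      rw [h5]
      exact div_self (mul_ne_zero ha hc)
    rw [h3, mul_one]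
  have step : ∑ a, ∑ c, Q.mu u a * Q.mu u c * ind (h a ≠ h c) ≤
      ∑ a, ∑ c, ∑ b, (Q.mu u a * Q.mu u c * τ a c b * ind (h a ≠ h b) +
        Q.mu u a * Q.mu u c * τ a c b * ind (h c ≠ h b)) := by
    refine Finset.sum_le_sum fun a _ => Finset.sum_le_sum fun c _ => ?_
    have e : Q.mu u a * Q.mu u c * ind (h a ≠ h c) =
        ∑ b, Q.mu u a * Q.mu u c * τ a c b * ind (h a ≠ h c) := by
      rw [← Finset.sum_mul, ← Finset.mul_sum, hτ1]
    rw [e]
    refine Finset.sum_le_sum fun b _ => ?_
    rw [← mul_add]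
    refine mul_le_mul_of_nonneg_left ?_ (mul_nonneg (mul_nonneg (Q.mu_nonneg _ _) (Q.mu_nonneg _ _))
      (hτ0 a c b))
    refine ind_or fun h3 => ?_
    by_contra h4
    push Not at h4
    exact h3 (h4.1.trans h4.2.symm)
  refine step.trans (le_of_eq ?_)
  simp_rw [Finset.sum_add_distrib]
  congr 1
  · refine Finset.sum_congr rfl fun a _ => ?_
    rw [Finset.sum_comm]
    refine Finset.sum_congr rfl fun b _ => ?_
    rw [← Finset.sum_mul]
    congr 1
    have e : ∀ c, Q.mu u a * Q.mu u c * τ a c b =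
        Q.mu u a * Q.cond u v a b / Q.lam v' (Q.proj u v' b) *
          (if Q.proj u v' c = Q.proj u v' b then Q.mu u c else 0) := by
      intro c
      simp only [τ]
      unfold Source.cond
      by_cases h3 : Q.proj u v b = Q.proj u v a
      · by_cases h4 : Q.proj u v' b = Q.proj u v' c
        · rw [if_pos ⟨h3, h4⟩, if_pos h3, if_pos h4.symm, ← h4]
          by_cases h5 : Q.lam v (Q.proj u v a) = 0
          · rw [h5]; simp
          by_cases h6 : Q.lam v' (Q.proj u v' b) = 0
          · rw [h6]; simp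
          field_simp
        · rw [if_neg (fun h => h4 h.2), if_neg (Ne.symm h4)]; simp
      · rw [if_neg (fun h => h3 h.1), if_neg h3]; simp
    simp_rw [e]
    rw [← Finset.mul_sum, ← Finset.sum_filter, Q.marginal u v' h2]
    by_cases h6 : Q.lam v' (Q.proj u v' b) = 0
    · rw [h6]
      unfold Source.cond
      rw [Q.mu_eq_zero h2 h6]
      simp
    · field_simp
  · rw [Finset.sum_comm]
    refine Finset.sum_congr rfl fun c _ => ?_
    rw [Finset.sum_comm]
    refine Finset.sum_congr rfl fun b _ => ?_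
    rw [← Finset.sum_mul]
    congr 1
    have e : ∀ a, Q.mu u a * Q.mu u c * τ a c b =
        Q.mu u c * Q.cond u v' c b / Q.lam v (Q.proj u v b) *
          (if Q.proj u v a = Q.proj u v b then Q.mu u a else 0) := by
      intro a
      simp only [τ]
      unfold Source.cond
      by_cases h3 : Q.proj u v b = Q.proj u v a
      · by_cases h4 : Q.proj u v' b = Q.proj u v' c
        · rw [if_pos ⟨h3, h4⟩, if_pos h4, if_pos h3.symm, ← h3]
          by_cases h5 : Q.lam v (Q.proj u v b) = 0
          · rw [h5]; simp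
          by_cases h6 : Q.lam v' (Q.proj u v' c) = 0
          · rw [h6]; simp
          field_simp
        · rw [if_neg (fun h => h4 h.2), if_neg h4]; simp
      · rw [if_neg (fun h => h3 h.1), if_neg (Ne.symm h3)]; simp
    simp_rw [e]
    rw [← Finset.mul_sum, ← Finset.sum_filter, Q.marginal u v h1]
    by_cases h6 : Q.lam v (Q.proj u v b) = 0
    · rw [h6]
      unfold Source.cond
      rw [Q.mu_eq_zero h1 h6]
      simp
    · field_simp

end Run7.h881.CK
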